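import Pool.Agent.W2helper95.TS.Weights

/-!
# Bounds for the number of the alternations
-/

set_option autoImplicit false

open Finset

namespace Pool.Agent.W2helper95.TS

open Pool.Agent.W2helper95.ET

variable {I J : Type}

theorem flag_of_ne {C : Net (I ⊕ J)} {x y : I → Bool} {w : J → Bool} {a : Fin C.s}
    (h : C.val (Sum.elim x w) a ≠ C.val (Sum.elim y w) a) : Flag C a := by
  by_contra hcon
  exact h (val_flag C x y w a.val a rfl hcon)

theorem fixC_neg {C : Net (I ⊕ J)} {w : J → Bool} {a : Fin C.s} (hf : Flag C a)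
    (h : C.UsedNeg a) : a ∈ (fixC C w).negs := by
  obtain ⟨i, v, θ, hg, hai, hv⟩ := h
  have hfi : Flag C i := Flag.thr hg (by rintro h0; rw [h0] at hv; exact lt_irrefl _ hv) hai hf
  refine (Net.mem_negs _).2 ⟨⟨i, v, θ, ?_, hai, hv⟩, ?_⟩
  · change fixGate C w i = _
    unfold fixGate
    rw [if_pos hfi, hg]
    rfl
  · intro c hc
    have hc' : fixGate C w a = Gate.const c := hc
    unfold fixGate at hc'
    rw [if_pos hf] at hc'
    cases hf with
    | inp h1 => rw [h1] at hc'; cases hc'
    | or h1 h2 h3 h4 => rw [h1] at hc'; cases hc'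
    | thr h1 h2 h3 h4 => rw [h1] at hc'; cases hc'

theorem negs_fixC {C : Net (I ⊕ J)} {w : J → Bool} {t : ℕ}
    (h : {a : Fin C.s | Flag C a ∧ C.UsedNeg a}.ncard ≤ t) : (fixC C w).negs.card ≤ t := by
  refine le_trans ?_ h
  rw [← Set.ncard_coe_finset]
  apply Set.ncard_le_ncard _ (Set.toFinite _)
  intro a ha
  have ha' := (Net.mem_negs _).1 (Finset.mem_coe.1 ha)
  refine ⟨?_, fixC_usedNeg ha'.1⟩
  by_contra hcon
  apply ha'.2 (C.val (Sum.elim (fun _ => false) w) a)
  change fixGate C w a = _
  unfold fixGate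
  rw [if_neg hcon]
  rfl

/-- At most `t` signals which depend on the flags are used with a negative weight. -/
theorem alternates_two_pow (C : Net (I ⊕ J)) (w : J → Bool) {t : ℕ}
    (h : {a : Fin C.s | Flag C a ∧ C.UsedNeg a}.ncard ≤ t) : Alternates C w (2 ^ t - 1) := by
  classical
  intro k x hx
  refine le_trans ?_ (altN_two_pow (fixC C w) (negs_fixC h) k x hx)
  rw [← Set.ncard_coe_finset]
  apply Set.ncard_le_ncard _ (Finset.finite_toSet _)
  rintro j ⟨hjk, a, ha, hne⟩
  rw [Finset.mem_coe, Finset.mem_filter, Finset.mem_range]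
  refine ⟨hjk, a, fixC_neg (flag_of_ne hne) ha, ?_⟩
  rw [fixC_val C w (x j) a.val a rfl, fixC_val C w (x (j + 1)) a.val a rfl]
  exact hne

/-- a monotone or antitone signal changes at most once -/
theorem change_once {x : ℕ → I → Bool} (hx : ∀ j e, x j e = true → x (j + 1) e = true)
    {f : (I → Bool) → Bool}
    (hf : (∀ y z : I → Bool, (∀ e, y e = true → z e = true) → f y = true → f z = true) ∨
      (∀ y z : I → Bool, (∀ e, y e = true → z e = true) → f z = true → f y = true))
    {i j : ℕ} (hi : f (x i) ≠ f (x (i + 1))) (hj : f (x j) ≠ f (x (j + 1))) : i = j := by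
  have hchain : ∀ i j, i ≤ j → ∀ e, x i e = true → x j e = true := by
    intro i j hij
    induction j, hij using Nat.le_induction with
    | base => exact fun e he => he
    | succ j _ ih => exact fun e he => hx j e (ih e he)
  have key : ∀ i j, f (x i) ≠ f (x (i + 1)) → f (x j) ≠ f (x (j + 1)) → ¬ i < j := by
    intro i j hi hj hij
    rcases hf with hf | hf
    · -- monotone
      have h1 := hf _ _ (hx i)
      have h2 := hf _ _ (hchain (i + 1) j hij)
      have h3 := hf _ _ (hx j)
      cases h4 : f (x i) <;> cases h5 : f (x (i + 1)) <;> cases h6 : f (x j) <;>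
        cases h7 : f (x (j + 1)) <;> simp_all
    · have h1 := hf _ _ (hx i)
      have h2 := hf _ _ (hchain (i + 1) j hij)
      have h3 := hf _ _ (hx j)
      cases h4 : f (x i) <;> cases h5 : f (x (i + 1)) <;> cases h6 : f (x j) <;>
        cases h7 : f (x (j + 1)) <;> simp_all
  rcases lt_trichotomy i j with h | h | h
  · exact absurd h (key i j hi hj)
  · exact h
  · exact absurd h (key j i hj hi)

/-- At most `t` signals which depend on the flags are used with a negative weight, and they are
monotone or antitone. -/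
theorem alternates_mono (C : Net (I ⊕ J)) (w : J → Bool) {t : ℕ}
    (h : {a : Fin C.s | Flag C a ∧ C.UsedNeg a}.ncard ≤ t)
    (hm : ∀ a, Flag C a → C.UsedNeg a →
      (∀ y z : I → Bool, (∀ e, y e = true → z e = true) →
        C.val (Sum.elim y w) a = true → C.val (Sum.elim z w) a = true) ∨
      (∀ y z : I → Bool, (∀ e, y e = true → z e = true) →
        C.val (Sum.elim z w) a = true → C.val (Sum.elim y w) a = true)) :
    Alternates C w t := by
  classical
  intro k x hx
  refine le_trans ?_ h
  set S : Set ℕ := {j : ℕ | j < k ∧ ∃ a, C.UsedNeg a ∧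
      C.val (Sum.elim (x j) w) a ≠ C.val (Sum.elim (x (j + 1)) w) a} with hS
  have hch : ∀ j ∈ S, ∃ a, C.UsedNeg a ∧
      C.val (Sum.elim (x j) w) a ≠ C.val (Sum.elim (x (j + 1)) w) a := fun j hj => hj.2
  have : Nonempty (Fin C.s) := ⟨C.out⟩
  choose! g hg using hch
  apply Set.ncard_le_ncard_of_injOn g _ _ (Set.toFinite _)
  · intro j hj
    exact ⟨flag_of_ne (hg j hj).2, (hg j hj).1⟩
  · intro i hi j hj hij
    have h1 := (hg i hi).2
    have h2 := (hg j hj).2
    rw [← hij] at h2
    exact change_once (f := fun y => C.val (Sum.elim y w) (g i)) hx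
      (hm (g i) (flag_of_ne h1) (hg i hi).1) h1 h2

end Pool.Agent.W2helper95.TS
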