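import Mathlib

/-!
# Circuits of linear threshold gates
-/

set_option autoImplicit false

open Finset

namespace Pool.Agent.W2helper95.TS

/-- The kinds of the gates of a circuit with `s` gates and inputs named by `I`: input gates,
constants, OR gates of a set of gates, and linear threshold gates with arbitrary real weights (of
any sign) and threshold. -/
inductive Gate (I : Type) (s : ℕ) : Type
  | inp (p : I) : Gate I s
  | const (c : Bool) : Gate I s
  | or (S : Finset (Fin s)) : Gate I s
  | thr (w : Fin s → ℝ) (θ : ℝ) : Gate I s

/-- A threshold circuit: gates `0, ..., s - 1`. OR gates and threshold gates read only gates with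
smaller numbers; fan-in and depth are not bounded, and a gate may be read any number of times. -/
structure Net (I : Type) where
  /-- the number of gates -/
  s : ℕ
  /-- the gates -/
  gate : Fin s → Gate I s
  /-- the output gate -/
  out : Fin s

namespace Net

variable {I : Type}

open Classical in
/-- The value of the gate `i` on the input `x`. An OR gate of the set `S` is true if some gate in
`S` with a smaller number is true. A threshold gate is true if the sum of the weights of the gates
with smaller numbers which are true is at least its threshold. -/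
noncomputable def val (C : Net I) (x : I → Bool) (i : Fin C.s) : Bool :=
  match C.gate i with
  | Gate.inp p => x p
  | Gate.const c => c
  | Gate.or S => decide (1 ≤ ∑ a ∈ S, if _h : a < i then (if C.val x a = true then 1 else 0) else 0)
  | Gate.thr w θ => decide (θ ≤ ∑ a : Fin C.s, if _h : a < i then
      (if C.val x a = true then w a else 0) else 0)
termination_by i.val
decreasing_by all_goals exact _h

/-- The value of the circuit. -/
noncomputable def eval (C : Net I) (x : I → Bool) : Bool := C.val x C.out

/-- The gate `a` is used with a negative weight: some threshold gate with a larger number gives it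
a negative weight. -/
def UsedNeg (C : Net I) (a : Fin C.s) : Prop :=
  ∃ i w θ, C.gate i = Gate.thr w θ ∧ a < i ∧ w a < 0

/-- The gate is a threshold gate. -/
def IsThr (C : Net I) (i : Fin C.s) : Prop := ∃ w θ, C.gate i = Gate.thr w θ

variable (C : Net I)

theorem val_inp {x : I → Bool} {i : Fin C.s} {p : I} (h : C.gate i = Gate.inp p) :
    C.val x i = x p := by
  rw [val]; split <;> simp_all

theorem val_const {x : I → Bool} {i : Fin C.s} {c : Bool} (h : C.gate i = Gate.const c) :
    C.val x i = c := by
  rw [val]; split <;> simp_all

theorem val_or {x : I → Bool} {i : Fin C.s} {S : Finset (Fin C.s)} (h : C.gate i = Gate.or S) :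
    C.val x i = true ↔ ∃ a, a < i ∧ a ∈ S ∧ C.val x a = true := by
  classical
  rw [val]
  split
  · rename_i h'; rw [h] at h'; cases h'
  · rename_i h'; rw [h] at h'; cases h'
  · rename_i S' h'
    rw [h] at h'
    obtain rfl : S = S' := by
      cases h'; rfl
    rw [decide_eq_true_iff]
    constructor
    · intro h1
      by_contra hcon
      push Not at hcon
      rw [Finset.sum_eq_zero] at h1
      · exact absurd h1 (by norm_num)
      · intro a ha
        by_cases hai : a < i
        · rw [dif_pos hai, if_neg (hcon a hai ha)]
        · rw [dif_neg hai]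
    · rintro ⟨a, h1, h2, h3⟩
      refine le_trans ?_ (Finset.single_le_sum (fun _ _ => Nat.zero_le _) h2)
      rw [dif_pos h1, if_pos h3]
  · rename_i h'; rw [h] at h'; cases h'

theorem val_thr {x : I → Bool} {i : Fin C.s} {w : Fin C.s → ℝ} {θ : ℝ}
    (h : C.gate i = Gate.thr w θ) :
    C.val x i = true ↔ θ ≤ ∑ a ∈ univ.filter (fun a => a < i), if C.val x a = true then w a else 0 := by
  classical
  rw [val]
  split
  · rename_i h'; rw [h] at h'; cases h'
  · rename_i h'; rw [h] at h'; cases h'
  · rename_i h'; rw [h] at h'; cases h'
  · rename_i w' θ' h'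
    rw [h] at h'
    obtain ⟨rfl, rfl⟩ : w = w' ∧ θ = θ' := by
      cases h'; exact ⟨rfl, rfl⟩
    rw [decide_eq_true_iff, Finset.sum_filter]
    rfl

/-- the signals with a negative weight which are no constants -/
def NegSig (a : Fin C.s) : Prop := C.UsedNeg a ∧ ∀ c, C.gate a ≠ Gate.const c

open Classical in
/-- the set of these signals -/
noncomputable def negs : Finset (Fin C.s) := univ.filter fun a => C.NegSig a

theorem mem_negs {a : Fin C.s} : a ∈ C.negs ↔ C.NegSig a := by
  classical
  simp [negs]

/-- If the earlier signals with a negative weight have the same values, then the value of `i` is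
monotone. -/
theorem mono_upto {x x' : I → Bool} (h : ∀ p, x p = true → x' p = true) :
    ∀ (n : ℕ) (i : Fin C.s), i.val = n → (∀ j ∈ C.negs, j < i → C.val x j = C.val x' j) →
      C.val x i = true → C.val x' i = true := by
  intro n
  induction n using Nat.strong_induction_on with
  | _ n ih =>
    intro i hn hj hx
    cases hg : C.gate i with
    | inp p => rw [C.val_inp hg] at hx ⊢; exact h p hx
    | const c => rw [C.val_const hg] at hx ⊢; exact hx
    | or S =>
      rw [C.val_or hg] at hx ⊢
      obtain ⟨a, hai, haS, hav⟩ := hx
      exact ⟨a, hai, haS, ih a.val (by rw [← hn]; exact hai) a rfl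
        (fun j hj' hja => hj j hj' (hja.trans hai)) hav⟩
    | thr w θ =>
      rw [C.val_thr hg] at hx ⊢
      refine hx.trans (Finset.sum_le_sum fun a ha => ?_)
      have hai : a < i := (Finset.mem_filter.1 ha).2
      by_cases hw : w a < 0
      · have heq : C.val x a = C.val x' a := by
          cases hga : C.gate a with
          | const c => rw [C.val_const hga, C.val_const hga]
          | inp p =>
            exact hj a (C.mem_negs.2 ⟨⟨i, w, θ, hg, hai, hw⟩, fun c => by rw [hga]; simp⟩) hai
          | or S =>
            exact hj a (C.mem_negs.2 ⟨⟨i, w, θ, hg, hai, hw⟩, fun c => by rw [hga]; simp⟩) hai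
          | thr w' θ' =>
            exact hj a (C.mem_negs.2 ⟨⟨i, w, θ, hg, hai, hw⟩, fun c => by rw [hga]; simp⟩) hai
        rw [heq]
      · have hw' : 0 ≤ w a := not_lt.1 hw
        have hmono : C.val x a = true → C.val x' a = true :=
          ih a.val (by rw [← hn]; exact hai) a rfl (fun j hj' hja => hj j hj' (hja.trans hai))
        by_cases h1 : C.val x a = true
        · rw [if_pos h1, if_pos (hmono h1)]
        · rw [if_neg h1]
          split_ifs
          · exact hw'
          · exact le_rfl

end Net

/-- geometric sum along a finite set -/
theorem geo {α : Type} [LinearOrder α] (T : Finset α) :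
    ∑ i ∈ T, 2 ^ (T.filter (fun j => i < j)).card + 1 = 2 ^ T.card := by
  induction T using Finset.induction_on_max with
  | empty => simp
  | insert a s hs ih =>
    have ha : a ∉ s := fun h => lt_irrefl a (hs a h)
    rw [Finset.sum_insert ha, Finset.card_insert_of_notMem ha]
    have e1 : (insert a s).filter (fun j => a < j) = ∅ := by
      rw [Finset.filter_eq_empty_iff]
      intro j hj
      rw [mem_insert] at hj
      rcases hj with rfl | hj
      · exact lt_irrefl _
      · exact (hs j hj).not_gt
    have e2 : ∀ i ∈ s, (2 : ℕ) ^ ((insert a s).filter (fun j => i < j)).card =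
        2 * 2 ^ (s.filter (fun j => i < j)).card := by
      intro i hi
      rw [Finset.filter_insert, if_pos (hs i hi), Finset.card_insert_of_notMem, pow_succ, mul_comm]
      intro h
      exact ha (Finset.mem_filter.1 h).1
    rw [e1, Finset.sum_congr rfl e2, ← Finset.mul_sum, Finset.card_empty, pow_succ]
    omega

namespace Net

variable {I : Type} (C : Net I)

/-- the weight of the vector of the values of the signals with a negative weight -/
noncomputable def wt (x : I → Bool) : ℕ :=
  ∑ i ∈ C.negs, if C.val x i = true then 2 ^ (C.negs.filter (fun j => i < j)).card else 0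

theorem wt_lt (x : I → Bool) : C.wt x + 1 ≤ 2 ^ C.negs.card := by
  rw [← geo]
  unfold wt
  gcongr with i hi
  split_ifs
  · exact le_rfl
  · exact Nat.zero_le _

/-- A signal with a negative weight has different values. -/
def Changed (x x' : I → Bool) : Prop := ∃ i ∈ C.negs, C.val x i ≠ C.val x' i

open Classical in
theorem wt_step {x x' : I → Bool} (h : ∀ p, x p = true → x' p = true) :
    C.wt x + (if C.Changed x x' then 1 else 0) ≤ C.wt x' := by
  by_cases hc : C.Changed x x'
  · rw [if_pos hc]
    set B := C.negs.filter (fun i => C.val x i ≠ C.val x' i) with hB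
    have hne : B.Nonempty := by
      obtain ⟨i, hi, hi'⟩ := hc
      exact ⟨i, Finset.mem_filter.2 ⟨hi, hi'⟩⟩
    set j := B.min' hne with hj
    have hjB : j ∈ B := B.min'_mem hne
    obtain ⟨hjT, hjne⟩ := Finset.mem_filter.1 hjB
    have hless : ∀ i ∈ C.negs, i < j → C.val x i = C.val x' i := by
      intro i hi hij
      by_contra hne'
      exact absurd (B.min'_le i (Finset.mem_filter.2 ⟨hi, hne'⟩)) (by rw [← hj]; exact hij.not_ge)
    have hm : C.val x j = true → C.val x' j = true := C.mono_upto h j.val j rfl hless
    have hvx : C.val x j = false ∧ C.val x' j = true := by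
      cases h1 : C.val x j with
      | true => exact absurd (by rw [h1, hm h1]) hjne
      | false =>
        cases h2 : C.val x' j with
        | true => simp
        | false => exact absurd (by rw [h1, h2]) hjne
    set T := C.negs with hT
    have split : ∀ y : I → Bool, C.wt y =
        (∑ i ∈ T.filter (fun i => i < j), if C.val y i = true then 2 ^ (T.filter (fun k => i < k)).card else 0) +
        ((if C.val y j = true then 2 ^ (T.filter (fun k => j < k)).card else 0) +
        ∑ i ∈ T.filter (fun i => j < i), if C.val y i = true then 2 ^ (T.filter (fun k => i < k)).card else 0) := by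
      intro y
      unfold wt
      rw [← hT, ← Finset.sum_filter_add_sum_filter_not T (fun i => i < j)]
      congr 1
      have : T.filter (fun i => ¬ i < j) = insert j (T.filter (fun i => j < i)) := by
        ext i
        simp only [mem_filter, mem_insert, _root_.not_lt]
        constructor
        · rintro ⟨h1, h2⟩
          rcases h2.eq_or_lt with h3 | h3
          · exact Or.inl h3.symm
          · exact Or.inr ⟨h1, h3⟩
        · rintro (h1 | h1)
          · rw [h1]; exact ⟨hjT, le_rfl⟩
          · exact ⟨h1.1, h1.2.le⟩
      rw [this, Finset.sum_insert]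
      simp
    rw [split x, split x', if_neg (by rw [hvx.1]; simp), if_pos hvx.2]
    have e1 : (∑ i ∈ T.filter (fun i => i < j), if C.val x i = true then 2 ^ (T.filter (fun k => i < k)).card else 0) =
        ∑ i ∈ T.filter (fun i => i < j), if C.val x' i = true then 2 ^ (T.filter (fun k => i < k)).card else 0 := by
      apply Finset.sum_congr rfl
      intro i hi
      rw [hless i (Finset.mem_filter.1 hi).1 (Finset.mem_filter.1 hi).2]
    rw [e1]
    have e2 : (∑ i ∈ T.filter (fun i => j < i), if C.val x i = true then 2 ^ (T.filter (fun k => i < k)).card else 0) + 1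
        ≤ 2 ^ (T.filter (fun k => j < k)).card := by
      rw [← geo]
      gcongr with i hi
      have : (T.filter (fun k => j < k)).filter (fun k => i < k) = T.filter (fun k => i < k) := by
        ext k
        simp only [mem_filter]
        constructor
        · rintro ⟨⟨h1, _⟩, h3⟩; exact ⟨h1, h3⟩
        · rintro ⟨h1, h3⟩; exact ⟨⟨h1, (Finset.mem_filter.1 hi).2.trans h3⟩, h3⟩
      rw [this]
      split_ifs
      · exact le_rfl
      · exact Nat.zero_le _
    omega
  · rw [if_neg hc, add_zero]
    unfold wt
    apply Finset.sum_le_sum
    intro i hi
    have : C.val x i = C.val x' i := by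
      by_contra hne
      exact hc ⟨i, hi, hne⟩
    rw [this]

/-! ### frozen signals -/

open Classical in
/-- The value of the gate `i` on the input `x` if the signals with a negative weight are replaced
by their values on the input `x0`. -/
noncomputable def fz (x0 x : I → Bool) (i : Fin C.s) : Bool :=
  match C.gate i with
  | Gate.inp p => x p
  | Gate.const c => c
  | Gate.or S => decide (1 ≤ ∑ a ∈ S, if _h : a < i then (if fz x0 x a = true then 1 else 0) else 0)
  | Gate.thr w θ => decide (θ ≤ ∑ a : Fin C.s, if _h : a < i then
      (if w a < 0 then (if C.val x0 a = true then w a else 0) else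
        (if fz x0 x a = true then w a else 0)) else 0)
termination_by i.val
decreasing_by all_goals exact _h

theorem fz_inp {x0 x : I → Bool} {i : Fin C.s} {p : I} (h : C.gate i = Gate.inp p) :
    C.fz x0 x i = x p := by
  rw [fz]; split <;> simp_all

theorem fz_const {x0 x : I → Bool} {i : Fin C.s} {c : Bool} (h : C.gate i = Gate.const c) :
    C.fz x0 x i = c := by
  rw [fz]; split <;> simp_all

theorem fz_or {x0 x : I → Bool} {i : Fin C.s} {S : Finset (Fin C.s)} (h : C.gate i = Gate.or S) :
    C.fz x0 x i = true ↔ ∃ a, a < i ∧ a ∈ S ∧ C.fz x0 x a = true := by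
  classical
  rw [fz]
  split
  · rename_i h'; rw [h] at h'; cases h'
  · rename_i h'; rw [h] at h'; cases h'
  · rename_i S' h'
    rw [h] at h'
    obtain rfl : S = S' := by
      cases h'; rfl
    rw [decide_eq_true_iff]
    constructor
    · intro h1
      by_contra hcon
      push Not at hcon
      rw [Finset.sum_eq_zero] at h1
      · exact absurd h1 (by norm_num)
      · intro a ha
        by_cases hai : a < i
        · rw [dif_pos hai, if_neg (hcon a hai ha)]
        · rw [dif_neg hai]
    · rintro ⟨a, h1, h2, h3⟩
      refine le_trans ?_ (Finset.single_le_sum (fun _ _ => Nat.zero_le _) h2)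
      rw [dif_pos h1, if_pos h3]
  · rename_i h'; rw [h] at h'; cases h'

theorem fz_thr {x0 x : I → Bool} {i : Fin C.s} {w : Fin C.s → ℝ} {θ : ℝ}
    (h : C.gate i = Gate.thr w θ) :
    C.fz x0 x i = true ↔ θ ≤ ∑ a ∈ univ.filter (fun a => a < i),
      (if w a < 0 then (if C.val x0 a = true then w a else 0) else
        (if C.fz x0 x a = true then w a else 0)) := by
  classical
  rw [fz]
  split
  · rename_i h'; rw [h] at h'; cases h'
  · rename_i h'; rw [h] at h'; cases h'
  · rename_i h'; rw [h] at h'; cases h'
  · rename_i w' θ' h'
    rw [h] at h'
    obtain ⟨rfl, rfl⟩ : w = w' ∧ θ = θ' := by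
      cases h'; exact ⟨rfl, rfl⟩
    rw [decide_eq_true_iff, Finset.sum_filter]
    rfl

/-- frozen values are monotone -/
theorem fz_mono {x0 x x' : I → Bool} (h : ∀ p, x p = true → x' p = true) :
    ∀ (n : ℕ) (i : Fin C.s), i.val = n → C.fz x0 x i = true → C.fz x0 x' i = true := by
  intro n
  induction n using Nat.strong_induction_on with
  | _ n ih =>
    intro i hn hx
    cases hg : C.gate i with
    | inp p => rw [C.fz_inp hg] at hx ⊢; exact h p hx
    | const c => rw [C.fz_const hg] at hx ⊢; exact hx
    | or S =>
      rw [C.fz_or hg] at hx ⊢
      obtain ⟨a, hai, haS, hav⟩ := hx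
      exact ⟨a, hai, haS, ih a.val (by rw [← hn]; exact hai) a rfl hav⟩
    | thr w θ =>
      rw [C.fz_thr hg] at hx ⊢
      refine hx.trans (Finset.sum_le_sum fun a ha => ?_)
      have hai : a < i := (Finset.mem_filter.1 ha).2
      by_cases hw : w a < 0
      · rw [if_pos hw, if_pos hw]
      · have hw' : 0 ≤ w a := not_lt.1 hw
        rw [if_neg hw, if_neg hw]
        have hmono := ih a.val (by rw [← hn]; exact hai) a rfl
        by_cases h1 : C.fz x0 x a = true
        · rw [if_pos h1, if_pos (hmono h1)]
        · rw [if_neg h1]
          split_ifs
          · exact hw'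
          · exact le_rfl

/-- frozen values are the values if the signals with a negative weight have the right values -/
theorem fz_eq {x0 x : I → Bool} : ∀ (n : ℕ) (i : Fin C.s), i.val = n →
    (∀ j ∈ C.negs, j < i → C.fz x0 x j = C.val x j → C.val x j = C.val x0 j) →
    C.fz x0 x i = C.val x i := by
  intro n
  induction n using Nat.strong_induction_on with
  | _ n ih =>
    intro i hn hj
    cases hg : C.gate i with
    | inp p => rw [C.fz_inp hg, C.val_inp hg]
    | const c => rw [C.fz_const hg, C.val_const hg]
    | or S =>
      rw [Bool.eq_iff_iff, C.fz_or hg, C.val_or hg]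
      have e : ∀ a, a < i → C.fz x0 x a = C.val x a := fun a hai =>
        ih a.val (by rw [← hn]; exact hai) a rfl (fun j hj' hja => hj j hj' (hja.trans hai))
      constructor
      · rintro ⟨a, hai, haS, hav⟩
        exact ⟨a, hai, haS, by rw [← e a hai]; exact hav⟩
      · rintro ⟨a, hai, haS, hav⟩
        exact ⟨a, hai, haS, by rw [e a hai]; exact hav⟩
    | thr w θ =>
      rw [Bool.eq_iff_iff, C.fz_thr hg, C.val_thr hg]
      have e : ∀ a ∈ univ.filter (fun a => a < i),
          (if w a < 0 then (if C.val x0 a = true then w a else 0) else
            (if C.fz x0 x a = true then w a else 0)) = if C.val x a = true then w a else 0 := by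
        intro a ha
        have hai : a < i := (Finset.mem_filter.1 ha).2
        have hia := ih a.val (by rw [← hn]; exact hai) a rfl
          (fun j hj' hja => hj j hj' (hja.trans hai))
        by_cases hw : w a < 0
        · rw [if_pos hw]
          have heq : C.val x a = C.val x0 a := by
            cases hga : C.gate a with
            | const c => rw [C.val_const hga, C.val_const hga]
            | inp p =>
              exact hj a (C.mem_negs.2 ⟨⟨i, w, θ, hg, hai, hw⟩, fun c => by rw [hga]; simp⟩) hai hia
            | or S =>
              exact hj a (C.mem_negs.2 ⟨⟨i, w, θ, hg, hai, hw⟩, fun c => by rw [hga]; simp⟩) hai hia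
            | thr w' θ' =>
              exact hj a (C.mem_negs.2 ⟨⟨i, w, θ, hg, hai, hw⟩, fun c => by rw [hga]; simp⟩) hai hia
          rw [heq]
        · rw [if_neg hw, hia]
      rw [Finset.sum_congr rfl e]

end Net

end Pool.Agent.W2helper95.TS
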