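import Pool.Agent.W2helper95.TS.Thr
import Pool.Agent.W2helper95.TS.Model
import Pool.Agent.W2helper95.ET.Chain

/-!
# Approximation of the gates of a threshold circuit by small sets of pairs
-/

set_option autoImplicit false

open Finset

namespace Pool.Agent.W2helper95.TS

open Pool.Agent.W2helper95.ET

/-- the number of the threshold gates -/
noncomputable def numThr {I : Type} (C : Net I) : ℕ := {i : Fin C.s | C.IsThr i}.ncard

/-- the threshold gates among the first `n` gates -/
noncomputable def thrs {I : Type} (C : Net I) (n : ℕ) : Finset (Fin C.s) := by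
  classical
  exact univ.filter (fun i => i.val < n ∧ C.IsThr i)

theorem mem_thrs {I : Type} (C : Net I) (n : ℕ) (i : Fin C.s) :
    i ∈ thrs C n ↔ i.val < n ∧ C.IsThr i := by
  classical
  simp [thrs]

theorem thrs_mono {I : Type} (C : Net I) (n : ℕ) : (thrs C n).card ≤ (thrs C (n + 1)).card := by
  apply Finset.card_le_card
  intro i hi
  rw [mem_thrs] at hi ⊢
  exact ⟨by omega, hi.2⟩

theorem thrs_succ {I : Type} (C : Net I) {n : ℕ} (hn : n < C.s) (h : C.IsThr ⟨n, hn⟩) :
    (thrs C (n + 1)).card = (thrs C n).card + 1 := by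
  have h1 : thrs C (n + 1) = insert ⟨n, hn⟩ (thrs C n) := by
    ext i
    rw [mem_thrs, Finset.mem_insert, mem_thrs]
    constructor
    · rintro ⟨h1, h2⟩
      by_cases hi : i.val = n
      · left; exact Fin.ext hi
      · right; exact ⟨by omega, h2⟩
    · rintro (rfl | ⟨h1, h2⟩)
      · exact ⟨by simp, h⟩
      · exact ⟨by omega, h2⟩
  rw [h1, Finset.card_insert_of_notMem]
  rw [mem_thrs]
  simp

theorem thrs_le {I : Type} (C : Net I) (n : ℕ) : (thrs C n).card ≤ numThr C := by
  unfold numThr
  rw [← Set.ncard_coe_finset]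
  apply Set.ncard_le_ncard _ (Set.toFinite _)
  intro i hi
  rw [Finset.mem_coe, mem_thrs] at hi
  exact hi.2

variable {V : Type} [DecidableEq V] [Fintype V]

section

variable (C : Net (Sym2 V)) (E : Finset (Sym2 V)) (u : Sym2 V → Bool)
  (T : Finset (Finset V)) (r : ℕ)

/-- the approximator of the gate is good -/
def Gd (L : Finset (Finset V)) (R : Finset (V → Bool)) (i : Fin C.s)
    (A : Option (Finset (Sym2 V))) : Prop :=
  (∀ H, A = some H → H ⊆ E ∧ ¬ Big r H) ∧
  (∀ K ∈ T, K ∉ L → C.fz (inw E u fun _ => false) (inw E u (zK K)) i = true → acc A (zK K)) ∧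
  ∀ g, g ∉ R → acc A (bic g) → C.fz (inw E u fun _ => false) (inw E u (bic g)) i = true

variable {C E u T r}

theorem Gd.mono {L L' : Finset (Finset V)} {R R' : Finset (V → Bool)} {i : Fin C.s}
    {A : Option (Finset (Sym2 V))} (h : Gd C E u T r L R i A) (hL : L ⊆ L') (hR : R ⊆ R') :
    Gd C E u T r L' R' i A :=
  ⟨h.1, fun K hK hKL => h.2.1 K hK fun h1 => hKL (hL h1), fun g hg => h.2.2 g fun h1 => hg (hR h1)⟩

omit [DecidableEq V] [Fintype V] in
theorem not_big_empty (hr : 1 ≤ r) : ¬ Big r (∅ : Finset (Sym2 V)) := by
  rintro ⟨N, hN, h⟩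
  have hne : N.Nonempty := by
    rw [← Finset.card_pos]
    omega
  obtain ⟨v, hv⟩ := hne
  obtain ⟨w, -, hw⟩ := h v hv
  simp at hw

omit [DecidableEq V] [Fintype V] in
theorem not_big_single (hr : 2 ≤ r) (p : Sym2 V) : ¬ Big r ({p} : Finset (Sym2 V)) := by
  rintro ⟨N, hN, h⟩
  obtain ⟨a, ha, b, hb, hab⟩ := Finset.one_lt_card.1 (by omega : 1 < N.card)
  obtain ⟨v, hv, hva⟩ := h a ha
  obtain ⟨w, hw, hwb⟩ := h b hb
  rw [Finset.mem_singleton] at hva hwb
  have h1 : s(a, v) = s(b, w) := by rw [hva, hwb]
  rcases Sym2.eq_iff.1 h1 with ⟨h2, -⟩ | ⟨h2, -⟩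
  · exact hab h2
  · exact hw (h2 ▸ ha)

theorem Gd.const (hr : 1 ≤ r) {L : Finset (Finset V)} {R : Finset (V → Bool)} {i : Fin C.s}
    (c : Bool) (hc : ∀ z, C.fz (inw E u fun _ => false) (inw E u z) i = c) :
    Gd C E u T r L R i (if c = true then none else some ∅) := by
  cases c with
  | true =>
    refine ⟨fun H h => ?_, fun K _ _ _ => ?_, fun g _ _ => ?_⟩
    · simp at h
    · exact trivial
    · exact hc _
  | false =>
    refine ⟨fun H h => ?_, fun K _ _ h => ?_, fun g _ h => ?_⟩
    · simp only [Bool.false_eq_true, if_false, Option.some.injEq] at h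
      rw [← h]
      exact ⟨by simp, not_big_empty hr⟩
    · rw [hc] at h
      simp at h
    · simp [acc] at h

/-- **The approximators.** -/
theorem approx (hE : ∀ p ∈ E, ¬ p.IsDiag) (hT : ∀ K ∈ T, K.card = 3) (hr : 2 ≤ r) :
    ∀ n ≤ C.s, ∃ (A : Fin C.s → Option (Finset (Sym2 V))) (L : Finset (Finset V))
      (R : Finset (V → Bool)), L.card ≤ DD r ^ 2 * (thrs C n).card ∧
      R.card * 2 ^ r ≤ n * (2 * 2 ^ Fintype.card V) ∧
      ∀ i : Fin C.s, i.val < n → Gd C E u T r L R i (A i) := by
  classical
  intro n
  induction n with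
  | zero =>
    intro _
    exact ⟨fun _ => none, ∅, ∅, by simp, by simp, fun i hi => absurd hi (Nat.not_lt_zero _)⟩
  | succ n ih =>
    intro hn
    obtain ⟨A, L, R, hL, hR, hG⟩ := ih (by omega)
    -- the extension
    have ext : ∀ (A' : Option (Finset (Sym2 V))) (L' : Finset (Finset V)) (R' : Finset (V → Bool)),
        L ⊆ L' → R ⊆ R' → L'.card ≤ DD r ^ 2 * (thrs C (n + 1)).card →
        R'.card * 2 ^ r ≤ (n + 1) * (2 * 2 ^ Fintype.card V) → Gd C E u T r L' R' ⟨n, hn⟩ A' →
        ∃ (A : Fin C.s → Option (Finset (Sym2 V))) (L : Finset (Finset V))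
          (R : Finset (V → Bool)), L.card ≤ DD r ^ 2 * (thrs C (n + 1)).card ∧
          R.card * 2 ^ r ≤ (n + 1) * (2 * 2 ^ Fintype.card V) ∧
          ∀ i : Fin C.s, i.val < n + 1 → Gd C E u T r L R i (A i) := by
      intro A' L' R' h1 h2 h3 h4 h5
      refine ⟨Function.update A ⟨n, hn⟩ A', L', R', h3, h4, fun i hi => ?_⟩
      by_cases hin : i = ⟨n, hn⟩
      · rw [hin, Function.update_self]
        exact h5
      · rw [Function.update_of_ne hin]
        refine (hG i ?_).mono h1 h2
        have : i.val ≠ n := fun h => hin (Fin.ext h)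
        omega
    have hL' : L.card ≤ DD r ^ 2 * (thrs C (n + 1)).card :=
      hL.trans (Nat.mul_le_mul_left _ (thrs_mono C n))
    have hR' : R.card * 2 ^ r ≤ (n + 1) * (2 * 2 ^ Fintype.card V) :=
      hR.trans (Nat.mul_le_mul_right _ (by omega))
    cases hg : C.gate ⟨n, hn⟩ with
    | inp p =>
      by_cases hp : p ∈ E
      · refine ext (some {p}) L R (Subset.refl _) (Subset.refl _) hL' hR' ⟨?_, ?_, ?_⟩
        · intro H hH
          rw [Option.some.injEq] at hH
          rw [← hH]
          exact ⟨by simpa using hp, not_big_single hr p⟩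
        · intro K _ _ h
          rw [C.fz_inp hg, inw_mem hp] at h
          exact ⟨p, by simp, h⟩
        · intro g _ h
          obtain ⟨q, hq, h⟩ := h
          rw [Finset.mem_singleton] at hq
          rw [C.fz_inp hg, inw_mem hp]
          rw [hq] at h
          exact h
      · refine ext _ L R (Subset.refl _) (Subset.refl _) hL' hR'
          (Gd.const (by omega) (u p) fun z => ?_)
        rw [C.fz_inp hg, inw_not_mem hp]
    | const c =>
      exact ext _ L R (Subset.refl _) (Subset.refl _) hL' hR'
        (Gd.const (by omega) c fun z => C.fz_const hg)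
    | or S =>
      set i0 : Fin C.s := ⟨n, hn⟩ with hi0
      set F : Finset (Fin C.s) := S.filter fun a => a < i0 with hF
      have hFn : ∀ a ∈ F, a.val < n := fun a ha => (Finset.mem_filter.1 ha).2
      have hone : ∀ (g : V → Bool), g ∉ R → ∀ a ∈ F, acc (A a) (bic g) →
          C.fz (inw E u fun _ => false) (inw E u (bic g)) i0 = true := by
        intro g hg' a ha h
        rw [C.fz_or hg]
        exact ⟨a, (Finset.mem_filter.1 ha).2, (Finset.mem_filter.1 ha).1,
          (hG a (hFn a ha)).2.2 g hg' h⟩
      by_cases hnone : ∃ a ∈ F, A a = none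
      · obtain ⟨a, ha, hAa⟩ := hnone
        refine ext none L R (Subset.refl _) (Subset.refl _) hL' hR'
          ⟨fun H h => absurd h (by simp), fun _ _ _ _ => trivial, ?_⟩
        intro g hgR _
        exact hone g hgR a ha (by rw [hAa]; trivial)
      · push Not at hnone
        set H : Finset (Sym2 V) := F.biUnion fun a => (A a).getD ∅ with hH
        have hHa : ∀ a ∈ F, A a = some ((A a).getD ∅) := by
          intro a ha
          obtain ⟨Ha, hHa⟩ := Option.ne_none_iff_exists'.1 (hnone a ha)
          rw [hHa, Option.getD_some]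
        by_cases hbig : Big r H
        · refine ext none L (R ∪ mono H) (Subset.refl _) Finset.subset_union_left hL' ?_
            ⟨fun H h => absurd h (by simp), fun _ _ _ _ => trivial, ?_⟩
          · have h1 := card_mono hbig
            have h2 := Finset.card_union_le R (mono H)
            have h3 := Nat.mul_le_mul_right (2 ^ r) h2
            rw [add_mul] at h3
            have h4 : (n + 1) * (2 * 2 ^ Fintype.card V) =
                n * (2 * 2 ^ Fintype.card V) + 2 * 2 ^ Fintype.card V := by ring
            omega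
          · intro g hgR _
            rw [Finset.mem_union, not_or] at hgR
            have h1 : ∃ p ∈ H, bic g p = true := by
              by_contra hcon
              push Not at hcon
              exact hgR.2 (Finset.mem_filter.2 ⟨mem_univ _, hcon⟩)
            obtain ⟨p, hp, hpg⟩ := h1
            obtain ⟨a, ha, hpa⟩ := Finset.mem_biUnion.1 hp
            exact hone g hgR.1 a ha (by rw [hHa a ha]; exact ⟨p, hpa, hpg⟩)
        · refine ext (some H) L R (Subset.refl _) (Subset.refl _) hL' hR' ⟨?_, ?_, ?_⟩
          · intro H' hH'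
            rw [Option.some.injEq] at hH'
            rw [← hH']
            refine ⟨fun p hp => ?_, hbig⟩
            obtain ⟨a, ha, hpa⟩ := Finset.mem_biUnion.1 hp
            exact ((hG a (hFn a ha)).1 _ (hHa a ha)).1 hpa
          · intro K hK hKL h
            rw [C.fz_or hg] at h
            obtain ⟨a, hai, haS, hav⟩ := h
            have haF : a ∈ F := Finset.mem_filter.2 ⟨haS, hai⟩
            have h1 := (hG a (hFn a haF)).2.1 K hK hKL hav
            rw [hHa a haF] at h1
            obtain ⟨p, hp, hpK⟩ := h1
            exact ⟨p, Finset.mem_biUnion.2 ⟨a, haF, hp⟩, hpK⟩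
          · rintro g hgR ⟨p, hp, hpg⟩
            obtain ⟨a, ha, hpa⟩ := Finset.mem_biUnion.1 hp
            exact hone g hgR a ha (by rw [hHa a ha]; exact ⟨p, hpa, hpg⟩)
    | thr w θ =>
      set i0 : Fin C.s := ⟨n, hn⟩ with hi0
      set x0 : Sym2 V → Bool := inw E u fun _ => false with hx0
      set F : Finset (Fin C.s) := univ.filter fun a => a < i0 with hF
      set wp : Fin C.s → ℝ := fun a => if w a < 0 then 0 else w a with hwp
      have hwp0 : ∀ a, 0 ≤ wp a := by
        intro a
        rw [hwp]
        simp only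
        split_ifs with h
        · exact le_rfl
        · exact not_lt.1 h
      set c0 : ℝ := ∑ a ∈ F, if w a < 0 then (if C.val x0 a = true then w a else 0) else 0 with hc0
      have hfz : ∀ x, C.fz x0 x i0 = true ↔ θ - c0 ≤ ∑ a ∈ F with C.fz x0 x a = true, wp a := by
        intro x
        have e0 : ∑ a ∈ F with C.fz x0 x a = true, wp a =
            ∑ a ∈ F, if C.fz x0 x a = true then wp a else 0 := Finset.sum_filter _ _
        rw [C.fz_thr hg, sub_le_iff_le_add', hc0, e0, ← Finset.sum_add_distrib]
        have e : ∀ a ∈ F, (if w a < 0 then (if C.val x0 a = true then w a else 0) else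
            (if C.fz x0 x a = true then w a else 0)) =
            (if w a < 0 then (if C.val x0 a = true then w a else 0) else 0) +
            (if C.fz x0 x a = true then wp a else 0) := by
          intro a _
          rw [hwp]
          simp only
          by_cases hw : w a < 0
          · rw [if_pos hw, if_pos hw, if_pos hw]
            simp
          · rw [if_neg hw, if_neg hw, if_neg hw, zero_add]
        rw [Finset.sum_congr rfl e]
      have hFn : ∀ a ∈ F, a.val < n := fun a ha => (Finset.mem_filter.1 ha).2
      obtain ⟨B, L2, R2, hL2, hR2, hB1, hB2, hB3⟩ := thr_approx hE hT (by omega : 1 ≤ r) F A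
        (fun a ha H hH => (hG a (hFn a ha)).1 H hH) wp (fun a _ => hwp0 a) (θ - c0)
      refine ext B (L ∪ L2) (R ∪ R2) Finset.subset_union_left Finset.subset_union_left ?_ ?_
        ⟨hB1, ?_, ?_⟩
      · refine (Finset.card_union_le _ _).trans ?_
        rw [thrs_succ C hn ⟨w, θ, hg⟩, mul_add, mul_one]
        exact Nat.add_le_add hL hL2
      · have h1 := Finset.card_union_le R R2
        have h2 := Nat.mul_le_mul_right (2 ^ r) h1
        rw [add_mul] at h2
        have h3 : (n + 1) * (2 * 2 ^ Fintype.card V) =
            n * (2 * 2 ^ Fintype.card V) + 2 * 2 ^ Fintype.card V := by ring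
        omega
      · intro K hK hKL h
        rw [Finset.mem_union, not_or] at hKL
        apply hB2 K hK hKL.2
        rw [hfz] at h
        refine h.trans ?_
        unfold Sw
        apply Finset.sum_le_sum_of_subset_of_nonneg
        · intro a ha
          obtain ⟨h1, h2⟩ := Finset.mem_filter.1 ha
          exact Finset.mem_filter.2 ⟨h1, (hG a (hFn a h1)).2.1 K hK hKL.1 h2⟩
        · intro a _ _
          exact hwp0 a
      · intro g hgR h
        rw [Finset.mem_union, not_or] at hgR
        rw [hfz]
        refine (hB3 g hgR.2 h).trans ?_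
        unfold Sw
        apply Finset.sum_le_sum_of_subset_of_nonneg
        · intro a ha
          obtain ⟨h1, h2⟩ := Finset.mem_filter.1 ha
          exact Finset.mem_filter.2 ⟨h1, (hG a (hFn a h1)).2.2 g hgR.1 h2⟩
        · intro a _ _
          exact hwp0 a

end

/-- The window as a monotone function, up to changes of the signals with a negative weight. -/
theorem win (C : Net (Sym2 V)) (E : Finset (Sym2 V)) (u : Sym2 V → Bool) :
    ∃ G : Finset (Fin C.s),
      (∀ z, C.eval (inw E u z) = true →
        ∃ i ∈ G, C.fz (inw E u fun _ => false) (inw E u z) i = true) ∧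
      (∀ z, ¬ C.Changed (inw E u fun _ => false) (inw E u z) →
        (∃ i ∈ G, C.fz (inw E u fun _ => false) (inw E u z) i = true) →
        C.eval (inw E u z) = true) := by
  classical
  set x0 := inw E u (fun _ => false) with hx0
  have hmono : ∀ z p, x0 p = true → inw E u z p = true := by
    intro z p hp
    by_cases hpE : p ∈ E
    · rw [hx0, inw_mem hpE] at hp
      simp at hp
    · rw [hx0, inw_not_mem hpE] at hp
      rw [inw_not_mem hpE]
      exact hp
  refine ⟨insert C.out (C.negs.filter fun a => C.val x0 a = false), ?_, ?_⟩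
  · intro z hC
    by_contra hcon
    push Not at hcon
    have hval : ∀ i, C.fz x0 (inw E u z) i = C.val (inw E u z) i := by
      intro i
      apply C.fz_eq i.val i rfl
      intro j hj _ hjv
      cases hv : C.val x0 j with
      | false =>
        have h1 := hcon j (Finset.mem_insert_of_mem (Finset.mem_filter.2 ⟨hj, hv⟩))
        rw [hjv] at h1
        simpa using h1
      | true =>
        have h1 : C.fz x0 x0 j = true := by
          rw [C.fz_eq j.val j rfl fun k _ _ _ => rfl]
          exact hv
        have h2 := C.fz_mono (x0 := x0) (hmono z) j.val j rfl h1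
        rw [hjv] at h2
        exact h2
    apply hcon C.out (Finset.mem_insert_self _ _)
    rw [hval]
    exact hC
  · rintro z hz ⟨i, hi, hiz⟩
    have hsame : ∀ j ∈ C.negs, C.val x0 j = C.val (inw E u z) j := by
      intro j hj
      by_contra hne
      exact hz ⟨j, hj, hne⟩
    rw [C.fz_eq i.val i rfl fun k hk _ _ => (hsame k hk).symm] at hiz
    rcases Finset.mem_insert.1 hi with h | h
    · rw [h] at hiz
      exact hiz
    · exfalso
      obtain ⟨hj, hv⟩ := Finset.mem_filter.1 h
      have := hsame i hj
      rw [hv, hiz] at this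
      exact absurd this (by simp)

end Pool.Agent.W2helper95.TS
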