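import Pool.Agent.W2helper95.TS.Avg

/-!
# The inequality for systems of blocks, for threshold circuits
-/

set_option autoImplicit false

open Finset

namespace Pool.Agent.W2helper95.TS

open Pool.Agent.W2helper95.ET

/-- The random threshold circuit decides with gap `δ`. -/
def Decides {V Ω : Type} [Fintype Ω] (δ : ℝ) (W : Sym2 V → ℤ) (p : Ω → ℝ)
    (C : Ω → Net (Sym2 V)) : Prop :=
  (∀ ω, 0 ≤ p ω) ∧ ∑ ω, p ω = 1 ∧ ∃ θ : ℝ, ∀ x : Sym2 V → Bool,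
    (HasZeroTriangle W x → θ + δ ≤ accProb p C x) ∧ (¬ HasZeroTriangle W x → accProb p C x ≤ θ)

theorem DD_le {r : ℕ} (hr : 1 ≤ r) : DD r ≤ 216 * r ^ 3 := by
  unfold DD
  have h1 : 5 * r + 4 ≤ 9 * r := by omega
  have h2 : (5 * r + 4) ^ 2 ≤ (9 * r) ^ 2 := Nat.pow_le_pow_left h1 2
  have h3 : r ^ 2 ≤ r ^ 3 := Nat.pow_le_pow_right hr (by norm_num)
  calc 2 * (5 * r + 4) ^ 2 + 6 * r ^ 2 * (5 * r + 4) ≤ 2 * (9 * r) ^ 2 + 6 * r ^ 2 * (9 * r) :=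
        Nat.add_le_add (Nat.mul_le_mul_left _ h2) (Nat.mul_le_mul_left _ h1)
    _ = 162 * r ^ 2 + 54 * r ^ 3 := by ring
    _ ≤ 216 * r ^ 3 := by omega

/-- The inequality for disjoint sets of pairs. -/
theorem core {δ : ℝ} (hδ : 0 < δ) : ∃ c : ℝ, 0 < c ∧ ∀ (V : Type) [DecidableEq V] [Fintype V]
    (W : Sym2 V → ℤ) (m : ℕ) (E : Fin m → Finset (Sym2 V)), (∀ b, ∀ p ∈ E b, ¬ p.IsDiag) →
    Dis E → (∀ K ∈ ZW W, (∀ p ∈ prs K, ∃ b, p ∈ E b) → ∃ b, prs K ⊆ E b) →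
    ∀ (Ω : Type) [Fintype Ω] (p : Ω → ℝ) (C : Ω → Net (Sym2 V)) (D A s : ℕ),
    Decides δ W p C → (∀ ω, AltN (C ω) D) → (∀ ω, numThr (C ω) ≤ A) →
    (∀ ω, (C ω).s ≤ s) →
    ∀ τ : ℝ, 0 ≤ τ → (∀ b, (((ZW W).filter fun K => prs K ⊆ E b).card : ℝ) ≤ τ) →
    3 / 4 * δ * ∑ b, (((ZW W).filter fun K => prs K ⊆ E b).card : ℝ) ≤
      τ * D + m * (c * (A + Fintype.card V) * (Nat.log 2 (s + 2) : ℝ) ^ 6) := by
  obtain ⟨d, hd⟩ := rchoice hδ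
  refine ⟨46656 * ((d : ℝ) + 3) ^ 6, by positivity, ?_⟩
  intro V _ _ W m E hdiag hE hcl Ω _ p C D A s hdec hD hA hs τ hτ hT
  obtain ⟨hp, hp1, θ, hθ⟩ := hdec
  set L := Nat.log 2 (s + 2) with hL
  have hL1 : 1 ≤ L := by
    rw [hL]
    exact Nat.log_pos (by norm_num) (by omega)
  have hL1' : (1 : ℝ) ≤ L := by exact_mod_cast hL1
  have hds : 8 * ((s : ℝ) + 1) ≤ δ * 2 ^ (d + L + 1 + 1) := by
    have h1 := hd s
    rw [pow_succ]
    linarith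
  have h := main_sum (r := d + L + 1 + 1) hdiag hE (fun K hK => (Finset.mem_filter.1 hK).2.1) hcl
    hp hp1 hD hA hs (fun x hx => (hθ x).1 ((has_iff W x).1 hx))
    (fun x hx => (hθ x).2 fun h => hx ((has_iff W x).2 h)) (by omega) hds hτ hT
  refine h.trans ?_
  apply add_le_add le_rfl
  apply mul_le_mul_of_nonneg_left _ (Nat.cast_nonneg _)
  have hd0 : (0 : ℝ) ≤ d := Nat.cast_nonneg _
  have hr1' : 1 ≤ d + L + 1 + 1 := by omega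
  have hDD : ((DD (d + L + 1 + 1) : ℕ) : ℝ) ≤ 216 * ((d + L + 1 + 1 : ℕ) : ℝ) ^ 3 := by
    exact_mod_cast DD_le hr1'
  have hr1 : (1 : ℝ) ≤ ((d + L + 1 + 1 : ℕ) : ℝ) := by exact_mod_cast hr1'
  have hr2 : ((d + L + 1 + 1 : ℕ) : ℝ) ≤ (d + 3) * L := by
    push_cast
    nlinarith
  set r : ℝ := ((d + L + 1 + 1 : ℕ) : ℝ) with hr
  have hA0 : (0 : ℝ) ≤ A := Nat.cast_nonneg _
  have hV0 : (0 : ℝ) ≤ Fintype.card V := Nat.cast_nonneg _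
  have hD2 : ((DD (d + L + 1 + 1) : ℕ) : ℝ) ^ 2 ≤ 46656 * r ^ 6 := by
    calc ((DD (d + L + 1 + 1) : ℕ) : ℝ) ^ 2 ≤ (216 * r ^ 3) ^ 2 :=
          pow_le_pow_left₀ (Nat.cast_nonneg _) hDD 2
      _ = 46656 * r ^ 6 := by ring
  have h2 : 2 * r ^ 2 ≤ 46656 * r ^ 6 := by
    have : r ^ 2 ≤ r ^ 6 := pow_le_pow_right₀ hr1 (by norm_num)
    have h0 : 0 ≤ r ^ 2 := by positivity
    linarith
  have h4 : r ^ 6 ≤ ((d + 3) * L) ^ 6 := pow_le_pow_left₀ (by linarith) hr2 6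
  calc ((DD (d + L + 1 + 1) : ℕ) : ℝ) ^ 2 * A + 2 * r ^ 2 * Fintype.card V
      ≤ 46656 * r ^ 6 * A + 46656 * r ^ 6 * Fintype.card V :=
        add_le_add (mul_le_mul_of_nonneg_right hD2 hA0) (mul_le_mul_of_nonneg_right h2 hV0)
    _ = r ^ 6 * (46656 * (A + Fintype.card V)) := by ring
    _ ≤ ((d + 3) * L) ^ 6 * (46656 * (A + Fintype.card V)) :=
        mul_le_mul_of_nonneg_right h4 (by positivity)
    _ = 46656 * ((d : ℝ) + 3) ^ 6 * (A + Fintype.card V) * (L : ℝ) ^ 6 := by ring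

/-- The inequality for systems of blocks. -/
theorem core_sys {δ : ℝ} (hδ : 0 < δ) : ∃ c : ℝ, 0 < c ∧ ∀ (V : Type) [DecidableEq V] [Fintype V]
    (W : Sym2 V → ℤ) (β : Type) [Fintype β] (S : Sys β) (gr : V → ℕ) (q : ℕ), S.Good gr W →
    (∀ j, (univ.filter fun v => gr v = j).card ≤ q) →
    ∀ (Ω : Type) [Fintype Ω] (p : Ω → ℝ) (C : Ω → Net (Sym2 V)) (D A s : ℕ),
    Decides δ W p C → (∀ ω, AltN (C ω) D) → (∀ ω, numThr (C ω) ≤ A) → (∀ ω, (C ω).s ≤ s) →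
    3 / 4 * δ * ∑ b, (((ZW W).filter fun K => prs K ⊆ S.E gr b).card : ℝ) ≤
      (q : ℝ) ^ 3 * D +
        Fintype.card β * (c * (A + Fintype.card V) * (Nat.log 2 (s + 2) : ℝ) ^ 6) := by
  obtain ⟨c, hc, h⟩ := core hδ
  refine ⟨c, hc, ?_⟩
  intro V _ _ W β _ S gr q hg hq Ω _ p C D A s hdec hD hA hs
  classical
  let e : Fin (Fintype.card β) ≃ β := (Fintype.equivFin β).symm
  have h1 := h V W (Fintype.card β) (fun i => S.E gr (e i)) (fun i => Sys.E_diag (e i))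
    (fun i j p hi hj => e.injective (Sys.E_dis (e i) (e j) p hi hj))
    (fun K hK hall => by
      obtain ⟨b, hb⟩ := Sys.closed hg K hK fun p hp => by
        obtain ⟨i, hi⟩ := hall p hp
        exact ⟨e i, hi⟩
      exact ⟨e.symm b, by simpa using hb⟩)
    Ω p C D A s hdec hD hA hs ((q : ℝ) ^ 3) (by positivity)
    (fun i => by exact_mod_cast S.card_le gr W hq (e i))
  rw [Equiv.sum_comp e fun b => (((ZW W).filter fun K => prs K ⊆ S.E gr b).card : ℝ)] at h1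
  exact h1

end Pool.Agent.W2helper95.TS
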