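import Pool.Agent.W2helper95.TS.Core
import Pool.Agent.W2helper95.ET.Fin

/-!
# The bounds for the number of the threshold gates
-/

set_option autoImplicit false

open Finset

namespace Pool.Agent.W2helper95.TS

open Pool.Agent.W2helper95.ET

theorem num2 {n k A L : ℕ} {ρ c : ℝ} (hk : 1 ≤ k) (hL : 1 ≤ L) (hρ : 0 ≤ ρ) (hρ1 : ρ ≤ 1)
    (hc : 0 ≤ c)
    (h : 1 ≤ n / (6 * k) → ρ * ((n / (6 * k) : ℕ) : ℝ) ^ 3 ≤ c * (((A : ℝ) + n) * (L : ℝ) ^ 6)) :
    ρ * (n : ℝ) ^ 3 ≤ (36 + 1728 * c) * (k : ℝ) ^ 3 * (((A : ℝ) + n) * (L : ℝ) ^ 6) := by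
  have hk1 : (1 : ℝ) ≤ k := by exact_mod_cast hk
  have hL1 : (1 : ℝ) ≤ (L : ℝ) ^ 6 := one_le_pow₀ (by exact_mod_cast hL)
  have hA : (0 : ℝ) ≤ A := Nat.cast_nonneg _
  have hn : (0 : ℝ) ≤ n := Nat.cast_nonneg _
  set Λ : ℝ := ((A : ℝ) + n) * (L : ℝ) ^ 6 with hΛ
  have hΛn : (n : ℝ) ≤ Λ := by
    calc (n : ℝ) ≤ ((A : ℝ) + n) * 1 := by linarith
      _ ≤ Λ := mul_le_mul_of_nonneg_left hL1 (by linarith)
  have hΛ0 : 0 ≤ Λ := hn.trans hΛn
  by_cases hq : 1 ≤ n / (6 * k)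
  · have h1 : n ≤ 12 * k * (n / (6 * k)) := by
      have h2 := Nat.div_add_mod n (6 * k)
      have h3 := Nat.mod_lt n (show 0 < 6 * k by omega)
      have h4 : 6 * k * 1 ≤ 6 * k * (n / (6 * k)) := Nat.mul_le_mul_left _ hq
      have h5 : 12 * k * (n / (6 * k)) = 6 * k * (n / (6 * k)) + 6 * k * (n / (6 * k)) := by ring
      omega
    have h2 : (n : ℝ) ≤ 12 * k * ((n / (6 * k) : ℕ) : ℝ) := by exact_mod_cast h1
    have h3 : (n : ℝ) ^ 3 ≤ (12 * k * ((n / (6 * k) : ℕ) : ℝ)) ^ 3 := pow_le_pow_left₀ hn h2 3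
    calc ρ * (n : ℝ) ^ 3 ≤ ρ * (12 * k * ((n / (6 * k) : ℕ) : ℝ)) ^ 3 :=
          mul_le_mul_of_nonneg_left h3 hρ
      _ = 1728 * (k : ℝ) ^ 3 * (ρ * ((n / (6 * k) : ℕ) : ℝ) ^ 3) := by ring
      _ ≤ 1728 * (k : ℝ) ^ 3 * (c * Λ) := mul_le_mul_of_nonneg_left (h hq) (by positivity)
      _ ≤ _ := by
          have : 0 ≤ 36 * (k : ℝ) ^ 3 * Λ := by positivity
          linarith
  · have h1 : n < 6 * k := by
      by_contra hcon
      push Not at hcon
      exact hq (Nat.div_pos hcon (by omega))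
    have h2 : (n : ℝ) ≤ 6 * k := by exact_mod_cast h1.le
    have h3 : (n : ℝ) ^ 2 ≤ (6 * k) ^ 2 := pow_le_pow_left₀ hn h2 2
    calc ρ * (n : ℝ) ^ 3 ≤ 1 * (n : ℝ) ^ 3 := mul_le_mul_of_nonneg_right hρ1 (by positivity)
      _ = (n : ℝ) ^ 2 * n := by ring
      _ ≤ (6 * k) ^ 2 * Λ := mul_le_mul h3 hΛn hn (by positivity)
      _ = 36 * (k : ℝ) ^ 2 * Λ := by ring
      _ ≤ 36 * (k : ℝ) ^ 3 * Λ := by
          apply mul_le_mul_of_nonneg_right _ hΛ0
          have : (k : ℝ) ^ 2 ≤ (k : ℝ) ^ 3 := pow_le_pow_right₀ hk1 (by norm_num)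
          linarith
      _ ≤ _ := by
          have : 0 ≤ 1728 * c * (k : ℝ) ^ 3 * Λ := by positivity
          linarith

/-- Monotone circuits. -/
theorem fin_mono {δ : ℝ} (hδ : 0 < δ) : ∃ c : ℝ, 0 < c ∧ ∀ (n : ℕ) (W : Sym2 (Fin n) → ℤ)
    (Ω : Type) [Fintype Ω] (p : Ω → ℝ) (C : Ω → Net (Sym2 (Fin n))) (A s : ℕ),
    Decides δ W p C → (∀ ω, AltN (C ω) 0) → (∀ ω, numThr (C ω) ≤ A) → (∀ ω, (C ω).s ≤ s) →
    (numZero W : ℝ) ≤ c * (((A : ℝ) + n) * (Nat.log 2 (s + 2) : ℝ) ^ 6) := by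
  obtain ⟨c, hc, h⟩ := core hδ
  refine ⟨c * (4 / 3 / δ), by positivity, ?_⟩
  intro n W Ω _ p C A s hdec ht hA hs
  rw [numZero_eq]
  set E : Fin 1 → Finset (Sym2 (Fin n)) := fun _ => univ.filter fun p => ¬ p.IsDiag with hE
  have hall : ∀ K : Finset (Fin n), ∀ b, prs K ⊆ E b := by
    intro K b q hq
    exact Finset.mem_filter.2 ⟨mem_univ _, (Finset.mem_filter.1 hq).2⟩
  have hT : ∀ b, ((ZW W).filter fun K => prs K ⊆ E b) = ZW W := fun b =>
    Finset.filter_true_of_mem fun K _ => hall K b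
  have h1 := h (Fin n) W 1 E (fun b q hq => (Finset.mem_filter.1 hq).2)
    (fun b b' _ _ _ => Subsingleton.elim b b') (fun K _ _ => ⟨0, hall K 0⟩) Ω p C 0 A s hdec ht hA
    hs (((ZW W).card : ℕ) : ℝ) (Nat.cast_nonneg _) (fun b => by rw [hT b])
  simp only [hT] at h1
  rw [Finset.sum_const, Finset.card_univ, Fintype.card_fin, Fintype.card_fin, one_smul, Nat.cast_zero,
    mul_zero, zero_add, Nat.cast_one, one_mul] at h1
  have h2 : ((ZW W).card : ℝ) = (3 / 4 * δ * (ZW W).card) * (4 / 3 / δ) := by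
    field_simp
  rw [h2]
  calc _ ≤ (c * ((A : ℝ) + n) * (Nat.log 2 (s + 2) : ℝ) ^ 6) * (4 / 3 / δ) :=
        mul_le_mul_of_nonneg_right h1 (by positivity)
    _ = _ := by ring

/-- Few changes, all weights. -/
theorem fin_all {δ ε : ℝ} (hδ : 0 < δ) (hε : 0 < ε) : ∃ c : ℝ, 0 < c ∧ ∀ (n : ℕ)
    (W : Sym2 (Fin n) → ℤ) (Ω : Type) [Fintype Ω] (p : Ω → ℝ) (C : Ω → Net (Sym2 (Fin n)))
    (D A s : ℕ), Decides δ W p C → (∀ ω, AltN (C ω) D) → (∀ ω, numThr (C ω) ≤ A) →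
    (∀ ω, (C ω).s ≤ s) →
    ((numZero W : ℝ) / (n : ℝ) ^ 3) ^ (5 / 2 + ε) * (n : ℝ) ^ 3 ≤
      c * ((D : ℝ) + 1) ^ (3 / 2 + ε) * (((A : ℝ) + n) * (Nat.log 2 (s + 2) : ℝ) ^ 6) := by
  obtain ⟨c, hc, h⟩ := core_sys hδ
  -- the constants
  set κ : ℝ := 1 / 2 + ε / 3 with hκ
  have hκ0 : 0 < κ := by positivity
  set η : ℝ := 2 - 1 / κ with hη
  have hη0 : 0 < η := by
    rw [hη]
    have : 1 / κ < 2 := by
      rw [div_lt_iff₀ hκ0, hκ]
      linarith
    linarith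
  set B : ℝ := 4 / δ * Real.exp (4 / η) with hB
  have hB0 : 0 < B := by positivity
  refine ⟨(36 + 1728 * (2 / δ * c)) * (B ^ κ + 1) ^ 3, by positivity, ?_⟩
  intro n W Ω _ p C D A s hdec ht hA hs
  set L := Nat.log 2 (s + 2) with hL
  have hL1 : 1 ≤ L := log_ge s
  set Λ : ℝ := ((A : ℝ) + n) * (L : ℝ) ^ 6 with hΛ
  have hΛ0 : 0 ≤ Λ := by positivity
  -- the trivial case
  by_cases hN : numZero W = 0
  · rw [hN, Nat.cast_zero, zero_div, Real.zero_rpow (by positivity), zero_mul]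
    positivity
  have hNle := numZero_le W
  have hn : 0 < n := by
    rcases Nat.eq_zero_or_pos n with h0 | h0
    · subst h0
      simp at hNle
      exact absurd hNle hN
    · exact h0
  have hn0 : (0 : ℝ) < n := by exact_mod_cast hn
  have hN0 : (0 : ℝ) < numZero W := by exact_mod_cast Nat.pos_of_ne_zero hN
  set ρ : ℝ := (numZero W : ℝ) / (n : ℝ) ^ 3 with hρ
  have hρ0 : 0 < ρ := by positivity
  have hρ1 : ρ ≤ 1 := by
    rw [hρ, div_le_one (by positivity)]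
    exact_mod_cast hNle
  have hD0 : (0 : ℝ) ≤ D := Nat.cast_nonneg _
  set x : ℝ := ((D : ℝ) + 1) / ρ with hx
  have hx1 : 1 ≤ x := by
    rw [hx, one_le_div hρ0]
    linarith
  obtain ⟨k, hk, hk1, hk2⟩ := num1 hB0.le hκ0 hx1
  have hk0 : (0 : ℝ) < k := by exact_mod_cast hk
  -- the number of the blocks
  obtain ⟨P, hDs, hDc, hDap⟩ := rothNumberNat_spec k
  set m : ℝ := (k : ℝ) * rothNumberNat k with hm
  have hcardβ : ((Fintype.card (Fin k × {d // d ∈ P}) : ℕ) : ℝ) = m := by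
    rw [Fintype.card_prod, Fintype.card_fin, Fintype.card_coe, hDc, hm]
    push_cast
    rfl
  have hmbig : (D : ℝ) + 1 ≤ δ / 4 * m * ρ := by
    have h1 := roth_pow hη0 hk
    have e1 : 2 - η = 1 / κ := by rw [hη]; ring
    rw [e1] at h1
    have h2 : Real.exp (-(4 / η)) * (B * x) ≤ m :=
      (mul_le_mul_of_nonneg_left hk1 (Real.exp_pos _).le).trans h1
    have h3 : Real.exp (-(4 / η)) * (B * x) = 4 / δ * x := by
      rw [hB, show Real.exp (-(4 / η)) * (4 / δ * Real.exp (4 / η) * x) =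
        4 / δ * x * (Real.exp (-(4 / η)) * Real.exp (4 / η)) by ring, ← Real.exp_add]
      simp
    rw [h3] at h2
    have h4 : δ / 4 * (4 / δ * x) * ρ ≤ δ / 4 * m * ρ := by
      apply mul_le_mul_of_nonneg_right _ hρ0.le
      exact mul_le_mul_of_nonneg_left h2 (by positivity)
    have h5 : δ / 4 * (4 / δ * x) * ρ = (D : ℝ) + 1 := by
      rw [hx]
      field_simp
    rw [h5] at h4
    exact h4
  have hm0 : 0 < m := by
    by_contra hcon
    push Not at hcon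
    have h1 : δ / 4 * m * ρ ≤ 0 := by
      have : 0 ≤ δ / 4 * ρ := by positivity
      nlinarith
    linarith
  -- the main inequality
  have hmain : ρ * (n : ℝ) ^ 3 ≤ (36 + 1728 * (2 / δ * c)) * (k : ℝ) ^ 3 * Λ := by
    apply num2 hk hL1 hρ0.le hρ1 (by positivity)
    intro hq
    set q := n / (6 * k) with hqd
    have hZ : ∀ b, ((rsSys k P hDs).Z b + 1) * q ≤ n := by
      intro b
      have h1 := rsSys_Z_lt hDs b
      calc ((rsSys k P hDs).Z b + 1) * q ≤ (6 * k) * q := Nat.mul_le_mul_right _ (by omega)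
        _ ≤ n := Nat.mul_div_le n (6 * k)
    obtain ⟨σ, hσ⟩ := exists_order (rsSys k P hDs) hZ W
    have h1 := h (Fin n) W _ (rsSys k P hDs) (grp n q σ) q
      (rsSys_good hDs hDap _ W) (grp_le hq σ) Ω p C D A s hdec ht hA hs
    rw [hcardβ, Fintype.card_fin] at h1
    have h2 : m * ρ * (q : ℝ) ^ 3 ≤
        ∑ b, (((ZW W).filter fun K => prs K ⊆ (rsSys k P hDs).E (grp n q σ) b).card : ℝ) := by
      have h3 : m * (numZero W : ℝ) * (q : ℝ) ^ 3 ≤ (n : ℝ) ^ 3 *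
          ∑ b, (((ZW W).filter fun K => prs K ⊆ (rsSys k P hDs).E (grp n q σ) b).card : ℝ) := by
        rw [← hcardβ, numZero_eq]
        exact_mod_cast hσ
      rw [hρ, show m * ((numZero W : ℝ) / (n : ℝ) ^ 3) * (q : ℝ) ^ 3 =
        (m * (numZero W : ℝ) * (q : ℝ) ^ 3) / (n : ℝ) ^ 3 by ring, div_le_iff₀ (by positivity)]
      linarith
    have hq3 : (0 : ℝ) ≤ (q : ℝ) ^ 3 := by positivity
    have h4 : 3 / 4 * δ * (m * ρ * (q : ℝ) ^ 3) ≤ (q : ℝ) ^ 3 * (δ / 4 * m * ρ) + m * (c * Λ) := by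
      calc 3 / 4 * δ * (m * ρ * (q : ℝ) ^ 3) ≤ _ := mul_le_mul_of_nonneg_left h2 (by positivity)
        _ ≤ _ := h1
        _ ≤ (q : ℝ) ^ 3 * (δ / 4 * m * ρ) + m * (c * Λ) := by
            apply add_le_add
            · exact mul_le_mul_of_nonneg_left (by linarith) hq3
            · apply le_of_eq
              rw [hΛ]
              ring
    have h5 : m * (δ / 2 * (ρ * (q : ℝ) ^ 3)) ≤ m * (c * Λ) := by linarith
    have h6 : δ / 2 * (ρ * (q : ℝ) ^ 3) ≤ c * Λ := le_of_mul_le_mul_left h5 hm0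
    calc ρ * (q : ℝ) ^ 3 = 2 / δ * (δ / 2 * (ρ * (q : ℝ) ^ 3)) := by field_simp
      _ ≤ 2 / δ * (c * Λ) := mul_le_mul_of_nonneg_left h6 (by positivity)
      _ = 2 / δ * c * Λ := by ring
  -- the end
  have h3κ : 3 * κ = 3 / 2 + ε := by rw [hκ]; ring
  have hxk : (k : ℝ) ^ 3 ≤ (B ^ κ + 1) ^ 3 * (((D : ℝ) + 1) ^ (3 / 2 + ε) / ρ ^ (3 / 2 + ε)) := by
    refine hk2.trans (le_of_eq ?_)
    rw [h3κ, hx, Real.div_rpow (by positivity) hρ0.le]
  have hρp : 0 < ρ ^ (3 / 2 + ε) := Real.rpow_pos_of_pos hρ0 _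
  calc ρ ^ (5 / 2 + ε) * (n : ℝ) ^ 3 = ρ ^ (3 / 2 + ε) * (ρ * (n : ℝ) ^ 3) := by
        rw [show (5 : ℝ) / 2 + ε = (3 / 2 + ε) + 1 by ring, Real.rpow_add hρ0, Real.rpow_one]
        ring
    _ ≤ ρ ^ (3 / 2 + ε) * ((36 + 1728 * (2 / δ * c)) * (k : ℝ) ^ 3 * Λ) :=
        mul_le_mul_of_nonneg_left hmain hρp.le
    _ ≤ ρ ^ (3 / 2 + ε) * ((36 + 1728 * (2 / δ * c)) *
          ((B ^ κ + 1) ^ 3 * (((D : ℝ) + 1) ^ (3 / 2 + ε) / ρ ^ (3 / 2 + ε))) * Λ) := by
        gcongr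
    _ = _ := by field_simp

/-- Few changes, special weights. -/
theorem fin_special {δ : ℝ} (hδ : 0 < δ) : ∃ c : ℝ, 0 < c ∧ ∀ n D : ℕ,
    ∃ W : Sym2 (Fin n) → ℤ, (∀ e, |W e| ≤ 2 * n) ∧
    ∀ (Ω : Type) [Fintype Ω] (p : Ω → ℝ) (C : Ω → Net (Sym2 (Fin n))) (A s : ℕ),
    Decides δ W p C → (∀ ω, AltN (C ω) D) → (∀ ω, numThr (C ω) ≤ A) →
    (∀ ω, (C ω).s ≤ s) →
    (n : ℝ) ^ 3 ≤ c * ((D : ℝ) + 1) ^ (3 / 2 : ℝ) *
      (((A : ℝ) + n) * (Nat.log 2 (s + 2) : ℝ) ^ 6) := by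
  obtain ⟨c, hc, h⟩ := core_sys hδ
  set B : ℝ := 4 / δ with hB
  have hB0 : 0 < B := by positivity
  refine ⟨(36 + 1728 * (2 / δ * c)) * (B ^ (1 / 2 : ℝ) + 1) ^ 3, by positivity, ?_⟩
  intro n D
  have hD0 : (0 : ℝ) ≤ D := Nat.cast_nonneg _
  set x : ℝ := (D : ℝ) + 1 with hx
  have hx1 : 1 ≤ x := by
    rw [hx]
    linarith
  obtain ⟨k, hk, hk1, hk2⟩ := num1 hB0.le (by norm_num : (0 : ℝ) < 1 / 2) hx1
  have hk0 : (0 : ℝ) < k := by exact_mod_cast hk
  set q := n / (6 * k) with hqd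
  refine ⟨potW k (grp n q 1), ?_, ?_⟩
  · intro e
    induction e with
    | _ u v =>
    have hpot : ∀ u : Fin n, |pot k (grp n q 1 u)| ≤ n := by
      intro u
      have h1 : grp n q 1 u ≤ u.val := Nat.div_le_self _ _
      have h2 := u.isLt
      unfold pot
      rw [abs_le]
      split_ifs <;> constructor <;> omega
    rw [potW_mk]
    have h1 := hpot u
    have h2 := hpot v
    have h3 := abs_add_le (pot k (grp n q 1 u)) (pot k (grp n q 1 v))
    linarith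
  · intro Ω _ p C A s hdec ht hA hs
    set W := potW k (grp n q 1) with hW
    set L := Nat.log 2 (s + 2) with hL
    have hL1 : 1 ≤ L := log_ge s
    set Λ : ℝ := ((A : ℝ) + n) * (L : ℝ) ^ 6 with hΛ
    have hΛ0 : 0 ≤ Λ := by positivity
    have hmain : 1 * (n : ℝ) ^ 3 ≤ (36 + 1728 * (2 / δ * c)) * (k : ℝ) ^ 3 * Λ := by
      apply num2 hk hL1 zero_le_one le_rfl (by positivity)
      intro hq
      rw [← hqd] at hq ⊢
      have hZ : ∀ b, ((addSys k).Z b + 1) * q ≤ n := by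
        intro b
        have h1 := addSys_Z_lt b
        calc ((addSys k).Z b + 1) * q ≤ (6 * k) * q := Nat.mul_le_mul_right _ (by omega)
          _ ≤ n := Nat.mul_div_le n (6 * k)
      have h1 := h (Fin n) W _ (addSys k) (grp n q 1) q (addSys_good _) (grp_le hq 1) Ω p C D A s
        hdec ht hA hs
      rw [Fintype.card_prod, Fintype.card_fin, Fintype.card_fin] at h1
      have hT : ∀ b, q ^ 3 ≤ ((ZW W).filter fun K => prs K ⊆ (addSys k).E (grp n q 1) b).card := by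
        intro b
        set G : ℕ → Finset (Fin n) := fun j => univ.filter fun i : Fin n => i.val / q = j with hG
        have hx := (addSys k).hX b
        have hy := (addSys k).hY b
        have hz := (addSys k).hZ b
        have hGq : ∀ j, j ≤ (addSys k).Z b → q ≤ (G j).card := by
          intro j hj
          apply le_grp
          exact (Nat.mul_le_mul_right q (by omega)).trans (hZ b)
        have hcard : q ^ 3 ≤
            (G ((addSys k).X b) ×ˢ (G ((addSys k).Y b) ×ˢ G ((addSys k).Z b))).card := by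
          rw [Finset.card_product, Finset.card_product]
          calc q ^ 3 = q * (q * q) := by ring
            _ ≤ _ := Nat.mul_le_mul (hGq _ (by omega))
              (Nat.mul_le_mul (hGq _ (by omega)) (hGq _ le_rfl))
        refine hcard.trans ?_
        apply Finset.card_le_card_of_injOn (fun x => ({x.1, x.2.1, x.2.2} : Finset (Fin n)))
        · rintro ⟨u, v, w⟩ huvw
          have h2 := Finset.mem_coe.1 huvw
          simp only [hG, Finset.mem_product, Finset.mem_filter, Finset.mem_univ, true_and] at h2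
          have huv : u ≠ v := by rintro rfl; omega
          have hvw : v ≠ w := by rintro rfl; omega
          have huw : u ≠ w := by rintro rfl; omega
          refine Finset.mem_coe.2 (Finset.mem_filter.2 ⟨?_, ?_⟩)
          · apply (mem_ZW W huv hvw huw).2
            exact addSys_zero (gr := grp n q 1) h2.1 h2.2.1 h2.2.2
          · exact Sys.prs_sub huv hvw huw h2.1 h2.2.1 h2.2.2
        · rintro ⟨u, v, w⟩ huvw ⟨u', v', w'⟩ huvw' heq
          have h2 := Finset.mem_coe.1 huvw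
          have h3 := Finset.mem_coe.1 huvw'
          simp only [hG, Finset.mem_product, Finset.mem_filter, Finset.mem_univ, true_and] at h2 h3
          simp only at heq
          have e1 : u ∈ ({u', v', w'} : Finset (Fin n)) := heq ▸ (by simp)
          have e2 : v ∈ ({u', v', w'} : Finset (Fin n)) := heq ▸ (by simp)
          have e3 : w ∈ ({u', v', w'} : Finset (Fin n)) := heq ▸ (by simp)
          simp only [mem_insert, mem_singleton] at e1 e2 e3
          have f1 : u = u' := by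
            rcases e1 with rfl | rfl | rfl
            · rfl
            · omega
            · omega
          have f2 : v = v' := by
            rcases e2 with rfl | rfl | rfl
            · omega
            · rfl
            · omega
          have f3 : w = w' := by
            rcases e3 with rfl | rfl | rfl
            · omega
            · omega
            · rfl
          rw [f1, f2, f3]
      have hq3 : (0 : ℝ) ≤ (q : ℝ) ^ 3 := by positivity
      have h2 : ((k : ℝ) * k) * (q : ℝ) ^ 3 ≤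
          ∑ b, (((ZW W).filter fun K => prs K ⊆ (addSys k).E (grp n q 1) b).card : ℝ) := by
        calc ((k : ℝ) * k) * (q : ℝ) ^ 3 = ∑ b : Fin k × Fin k, (q : ℝ) ^ 3 := by
              rw [Finset.sum_const, Finset.card_univ, Fintype.card_prod, Fintype.card_fin,
                nsmul_eq_mul]
              push_cast
              ring
          _ ≤ _ := Finset.sum_le_sum fun b _ => by exact_mod_cast hT b
      have hbig : (D : ℝ) + 1 ≤ δ / 4 * ((k : ℝ) * k) := by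
        have e1 : (k : ℝ) ^ (1 / (1 / 2) : ℝ) = (k : ℝ) * k := by
          rw [show (1 / (1 / 2) : ℝ) = 2 by norm_num, Real.rpow_two, sq]
        rw [e1] at hk1
        calc (D : ℝ) + 1 = δ / 4 * (B * x) := by rw [hB, hx]; field_simp
          _ ≤ _ := mul_le_mul_of_nonneg_left hk1 (by positivity)
      push_cast at h1
      have h4 : 3 / 4 * δ * (((k : ℝ) * k) * (q : ℝ) ^ 3) ≤
          (q : ℝ) ^ 3 * (δ / 4 * ((k : ℝ) * k)) + ((k : ℝ) * k) * (c * Λ) := by
        calc 3 / 4 * δ * (((k : ℝ) * k) * (q : ℝ) ^ 3) ≤ _ :=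
              mul_le_mul_of_nonneg_left h2 (by positivity)
          _ ≤ _ := h1
          _ ≤ _ := by
              apply add_le_add
              · exact mul_le_mul_of_nonneg_left (by linarith) hq3
              · apply le_of_eq
                rw [hΛ]
                ring
      have hkk : (0 : ℝ) < (k : ℝ) * k := by positivity
      have h5 : ((k : ℝ) * k) * (δ / 2 * (q : ℝ) ^ 3) ≤ ((k : ℝ) * k) * (c * Λ) := by linarith
      have h6 : δ / 2 * (q : ℝ) ^ 3 ≤ c * Λ := le_of_mul_le_mul_left h5 hkk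
      calc 1 * (q : ℝ) ^ 3 = 2 / δ * (δ / 2 * (q : ℝ) ^ 3) := by field_simp
        _ ≤ 2 / δ * (c * Λ) := mul_le_mul_of_nonneg_left h6 (by positivity)
        _ = 2 / δ * c * Λ := by ring
    have hxk : (k : ℝ) ^ 3 ≤ (B ^ (1 / 2 : ℝ) + 1) ^ 3 * ((D : ℝ) + 1) ^ (3 / 2 : ℝ) := by
      refine hk2.trans (le_of_eq ?_)
      rw [hx]
      congr 2
      norm_num
    calc (n : ℝ) ^ 3 = 1 * (n : ℝ) ^ 3 := (one_mul _).symm
      _ ≤ _ := hmain
      _ ≤ (36 + 1728 * (2 / δ * c)) *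
            ((B ^ (1 / 2 : ℝ) + 1) ^ 3 * ((D : ℝ) + 1) ^ (3 / 2 : ℝ)) * Λ := by gcongr
      _ = _ := by ring

end Pool.Agent.W2helper95.TS
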