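import Pool.Agent.W2helper95.ET.Tri

/-!
# Large sets of pairs have many pairs with two colours
-/

set_option autoImplicit false

open Finset

namespace Pool.Agent.W2helper95.TS

open Pool.Agent.W2helper95.ET

variable {V : Type} [DecidableEq V] [Fintype V]

omit [Fintype V] in
theorem big_sub {r : ℕ} {H : Finset (Sym2 V)} (h : Big r H) :
    ∃ M ⊆ H, M.card ≤ r ∧ Big r M := by
  obtain ⟨N, hN, hv⟩ := h
  choose! f hf hfH using hv
  refine ⟨N.image fun u => s(u, f u), ?_, ?_, N, hN, ?_⟩
  · intro p hp
    obtain ⟨u, hu, rfl⟩ := Finset.mem_image.1 hp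
    exact hfH u hu
  · rw [← hN]
    exact Finset.card_image_le
  · intro u hu
    exact ⟨f u, hf u hu, Finset.mem_image.2 ⟨u, hu, rfl⟩⟩

/-- the pairs of `P` with two colours -/
def hit (P : Finset (Sym2 V)) (g : V → Bool) : Finset (Sym2 V) := P.filter fun p => bic g p = true

/-- a large set of pairs has many pairs with two colours, for most colourings -/
theorem many (r2 : ℕ) : ∀ (h : ℕ) (P : Finset (Sym2 V)), (∀ p ∈ P, ¬ p.IsDiag) →
    2 * r2 ^ 2 + h * r2 < P.card →
    (univ.filter fun g : V → Bool => (hit P g).card < h).card * 2 ^ r2 ≤ h * 2 ^ Fintype.card V := by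
  intro h
  induction h with
  | zero => intro P _ _; simp
  | succ h ih =>
    intro P hP hc
    have hbig : Big r2 P := by
      by_contra hcon
      have := card_le_of_not_big hP hcon
      omega
    obtain ⟨M, hMP, hMc, hM⟩ := big_sub hbig
    have hP' : 2 * r2 ^ 2 + h * r2 < (P \ M).card := by
      have h1 := Finset.card_sdiff_add_card_eq_card hMP
      have h2 : (h + 1) * r2 = h * r2 + r2 := by ring
      omega
    have h1 := ih (P \ M) (fun p hp => hP p (Finset.mem_sdiff.1 hp).1) hP'
    have h2 := card_mono hM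
    have hsub : (univ.filter fun g : V → Bool => (hit P g).card < h + 1) ⊆
        mono M ∪ (univ.filter fun g : V → Bool => (hit (P \ M) g).card < h) := by
      intro g hg
      have hg' := (Finset.mem_filter.1 hg).2
      by_cases hm : g ∈ mono M
      · exact Finset.mem_union_left _ hm
      · apply Finset.mem_union_right
        refine Finset.mem_filter.2 ⟨mem_univ _, ?_⟩
        have hex : ∃ p ∈ M, bic g p = true := by
          by_contra hcon
          push Not at hcon
          exact hm (Finset.mem_filter.2 ⟨mem_univ _, hcon⟩)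
        obtain ⟨p, hp, hpg⟩ := hex
        have h3 : (hit (P \ M) g) ⊂ hit P g := by
          refine ⟨fun q hq => ?_, fun hcon => ?_⟩
          · obtain ⟨hq1, hq2⟩ := Finset.mem_filter.1 hq
            exact Finset.mem_filter.2 ⟨(Finset.mem_sdiff.1 hq1).1, hq2⟩
          · have := hcon (Finset.mem_filter.2 ⟨hMP hp, hpg⟩)
            exact (Finset.mem_sdiff.1 (Finset.mem_filter.1 this).1).2 hp
        have := Finset.card_lt_card h3
        omega
    have h3 := (Finset.card_le_card hsub).trans (Finset.card_union_le _ _)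
    have h4 := Nat.mul_le_mul_right (2 ^ r2) h3
    rw [add_mul] at h4
    have h5 : (h + 1) * 2 ^ Fintype.card V = h * 2 ^ Fintype.card V + 2 ^ Fintype.card V := by ring
    omega

open Classical in
/-- many heavy pairs with two colours give a large weight -/
theorem heavy {ι : Type} (F : Finset ι) (H : ι → Finset (Sym2 V)) {m : ℕ} (hm : 0 < m)
    (hH : ∀ a ∈ F, (H a).card ≤ m) (w : ι → ℝ) (hw : ∀ a ∈ F, 0 ≤ w a) {c : ℝ} (hc : 0 ≤ c)
    {P : Finset (Sym2 V)} (hP : ∀ p ∈ P, c ≤ ∑ a ∈ F with p ∈ H a, w a) (g : V → Bool) {h : ℕ}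
    (hh : h ≤ (hit P g).card) :
    h * c / m ≤ ∑ a ∈ F with (∃ p ∈ H a, bic g p = true), w a := by
  have hm0 : (0 : ℝ) < m := by exact_mod_cast hm
  rw [div_le_iff₀ hm0]
  calc (h : ℝ) * c ≤ (hit P g).card * c := by
        apply mul_le_mul_of_nonneg_right _ hc
        exact_mod_cast hh
    _ = ∑ p ∈ hit P g, c := by rw [Finset.sum_const, nsmul_eq_mul]
    _ ≤ ∑ p ∈ hit P g, ∑ a ∈ F with p ∈ H a, w a :=
        Finset.sum_le_sum fun p hp => hP p (Finset.mem_filter.1 hp).1
    _ = ∑ p ∈ hit P g, ∑ a ∈ F, if p ∈ H a then w a else 0 := by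
        refine Finset.sum_congr rfl fun p _ => ?_
        rw [Finset.sum_filter]
    _ = ∑ a ∈ F, ∑ p ∈ hit P g, if p ∈ H a then w a else 0 := Finset.sum_comm
    _ ≤ ∑ a ∈ F, if (∃ p ∈ H a, bic g p = true) then w a * m else 0 := by
        refine Finset.sum_le_sum fun a ha => ?_
        rw [← Finset.sum_filter, Finset.sum_const, nsmul_eq_mul]
        by_cases hex : ∃ p ∈ H a, bic g p = true
        · rw [if_pos hex, mul_comm]
          apply mul_le_mul_of_nonneg_left _ (hw a ha)
          have h1 : ((hit P g).filter fun p => p ∈ H a) ⊆ H a := fun p hp =>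
            (Finset.mem_filter.1 hp).2
          exact_mod_cast (Finset.card_le_card h1).trans (hH a ha)
        · rw [if_neg hex]
          have h1 : ((hit P g).filter fun p => p ∈ H a) = ∅ := by
            apply Finset.filter_eq_empty_iff.2
            intro p hp hpa
            exact hex ⟨p, hpa, (Finset.mem_filter.1 hp).2⟩
          rw [h1]
          simp
    _ = (∑ a ∈ F with (∃ p ∈ H a, bic g p = true), w a) * m := by
        rw [← Finset.sum_filter, Finset.sum_mul]

end Pool.Agent.W2helper95.TS
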