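import Pool.Agent.W2helper95.TS.Hits
import Pool.Agent.W2helper95.ET.Approx

/-!
# Approximation of a threshold gate
-/

set_option autoImplicit false

open Finset

namespace Pool.Agent.W2helper95.TS

open Pool.Agent.W2helper95.ET

variable {V : Type} [DecidableEq V] [Fintype V]

/-- the bound for the number of the heavy pairs -/
def DD (r : ℕ) : ℕ := 2 * (5 * r + 4) ^ 2 + 6 * r ^ 2 * (5 * r + 4)

open Classical in
/-- the sum of the weights of the accepting approximators -/
noncomputable def Sw {ι : Type} (F : Finset ι) (A : ι → Option (Finset (Sym2 V))) (w : ι → ℝ)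
    (z : Sym2 V → Bool) : ℝ := ∑ a ∈ F with acc (A a) z, w a

theorem r_sq_le (r : ℕ) : r ^ 2 ≤ 2 ^ (2 * r) := by
  have h1 : r ≤ 2 ^ r := Nat.lt_two_pow_self.le
  calc r ^ 2 ≤ (2 ^ r) ^ 2 := Nat.pow_le_pow_left h1 2
    _ = 2 ^ (2 * r) := by rw [← pow_mul, mul_comm]

theorem pow_cancel {a b c N : ℕ} (h : a * 2 ^ (b + c) ≤ 2 ^ c * N) : a * 2 ^ b ≤ N := by
  have h1 : 2 ^ c * (a * 2 ^ b) ≤ 2 ^ c * N := by
    calc 2 ^ c * (a * 2 ^ b) = a * 2 ^ (b + c) := by rw [pow_add]; ring
      _ ≤ _ := h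
  exact Nat.le_of_mul_le_mul_left h1 (by positivity)

open Classical in
theorem thr_approx {E : Finset (Sym2 V)} (hE : ∀ p ∈ E, ¬ p.IsDiag) {T : Finset (Finset V)}
    (hT : ∀ K ∈ T, K.card = 3) {r : ℕ} (hr : 1 ≤ r) {ι : Type} (F : Finset ι)
    (A : ι → Option (Finset (Sym2 V))) (hA : ∀ a ∈ F, ∀ H, A a = some H → H ⊆ E ∧ ¬ Big r H)
    (w : ι → ℝ) (hw : ∀ a ∈ F, 0 ≤ w a) (θ : ℝ) :
    ∃ (B : Option (Finset (Sym2 V))) (L : Finset (Finset V)) (R : Finset (V → Bool)),
      L.card ≤ DD r ^ 2 ∧ R.card * 2 ^ r ≤ 2 * 2 ^ Fintype.card V ∧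
      (∀ H, B = some H → H ⊆ E ∧ ¬ Big r H) ∧
      (∀ K ∈ T, K ∉ L → θ ≤ Sw F A w (zK K) → acc B (zK K)) ∧
      ∀ g, g ∉ R → acc B (bic g) → θ ≤ Sw F A w (bic g) := by
  set N := 2 ^ Fintype.card V with hN
  set bad : Finset (V → Bool) := univ.filter fun g => ¬ θ ≤ Sw F A w (bic g) with hbad
  by_cases hcase : bad.card * 2 ^ r ≤ 2 * N
  · -- the gate accepts most colourings
    refine ⟨none, ∅, bad, by simp, hcase, fun H h => absurd h (by simp), fun _ _ _ _ => trivial, ?_⟩
    intro g hg _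
    by_contra hcon
    exact hg (Finset.mem_filter.2 ⟨mem_univ _, hcon⟩)
  -- the pairs which nearly force the gate
  set badp : Sym2 V → Finset (V → Bool) := fun p =>
    univ.filter fun g => bic g p = true ∧ ¬ θ ≤ Sw F A w (bic g) with hbadp
  set H : Finset (Sym2 V) := E.filter fun p => (badp p).card * 2 ^ (3 * r + 1) ≤ N with hH
  have hHE : H ⊆ E := Finset.filter_subset _ _
  have hsumM : ∀ M : Finset (Sym2 V), M ⊆ H → M.card ≤ 2 ^ (2 * r + 1) →
      (M.biUnion badp).card * 2 ^ r ≤ N := by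
    intro M hM hMc
    have h1 : (M.biUnion badp).card * 2 ^ (3 * r + 1) ≤ 2 ^ (2 * r + 1) * N := by
      calc (M.biUnion badp).card * 2 ^ (3 * r + 1)
          ≤ (∑ p ∈ M, (badp p).card) * 2 ^ (3 * r + 1) :=
            Nat.mul_le_mul_right _ Finset.card_biUnion_le
        _ = ∑ p ∈ M, (badp p).card * 2 ^ (3 * r + 1) := by rw [Finset.sum_mul]
        _ ≤ ∑ p ∈ M, N := Finset.sum_le_sum fun p hp => (Finset.mem_filter.1 (hM hp)).2
        _ = M.card * N := by rw [Finset.sum_const, smul_eq_mul]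
        _ ≤ _ := Nat.mul_le_mul_right _ hMc
    have h2 : 3 * r + 1 = r + (2 * r + 1) := by ring
    rw [h2] at h1
    exact pow_cancel h1
  have hHbig : ¬ Big r H := by
    intro hbig
    obtain ⟨M, hMH, hMc, hM⟩ := big_sub hbig
    apply hcase
    have hMc' : M.card ≤ 2 ^ (2 * r + 1) := by
      have h1 : r < 2 ^ r := Nat.lt_two_pow_self
      have h2 : 2 ^ r ≤ 2 ^ (2 * r + 1) := Nat.pow_le_pow_right (by norm_num) (by omega)
      omega
    have h1 := hsumM M hMH hMc'
    have h2 := card_mono hM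
    have hsub : bad ⊆ mono M ∪ M.biUnion badp := by
      intro g hg
      have hg' := (Finset.mem_filter.1 hg).2
      by_cases hm : g ∈ mono M
      · exact Finset.mem_union_left _ hm
      · apply Finset.mem_union_right
        have hex : ∃ p ∈ M, bic g p = true := by
          by_contra hcon
          push Not at hcon
          exact hm (Finset.mem_filter.2 ⟨mem_univ _, hcon⟩)
        obtain ⟨p, hp, hpg⟩ := hex
        exact Finset.mem_biUnion.2 ⟨p, hp, Finset.mem_filter.2 ⟨mem_univ _, hpg, hg'⟩⟩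
    have h3 := (Finset.card_le_card hsub).trans (Finset.card_union_le _ _)
    have h4 := Nat.mul_le_mul_right (2 ^ r) h3
    rw [add_mul] at h4
    omega
  have hHc : H.card ≤ 2 * r ^ 2 := card_le_of_not_big (fun p hp => hE p (hHE hp)) hHbig
  have hHc' : H.card ≤ 2 ^ (2 * r + 1) := by
    have := r_sq_le r
    have h2 : 2 ^ (2 * r + 1) = 2 * 2 ^ (2 * r) := by rw [pow_succ]; ring
    omega
  -- the weights
  set Hs : ι → Finset (Sym2 V) := fun a => (A a).getD ∅ with hHs
  set F0 := F.filter fun a => A a = none with hF0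
  set F1 := F.filter fun a => A a ≠ none with hF1
  set W0 : ℝ := ∑ a ∈ F0, w a with hW0
  have hsome : ∀ a ∈ F1, A a = some (Hs a) := by
    intro a ha
    have h1 := (Finset.mem_filter.1 ha).2
    obtain ⟨H', hH'⟩ := Option.ne_none_iff_exists'.1 h1
    rw [hHs]
    simp only [hH', Option.getD_some]
  have hF1F : ∀ a ∈ F1, a ∈ F := fun a ha => (Finset.mem_filter.1 ha).1
  have hHsE : ∀ a ∈ F1, Hs a ⊆ E := fun a ha => (hA a (hF1F a ha) _ (hsome a ha)).1
  have hHsc : ∀ a ∈ F1, (Hs a).card ≤ 2 * r ^ 2 := fun a ha =>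
    card_le_of_not_big (fun p hp => hE p (hHsE a ha hp)) (hA a (hF1F a ha) _ (hsome a ha)).2
  have hw1 : ∀ a ∈ F1, 0 ≤ w a := fun a ha => hw a (hF1F a ha)
  have hSw : ∀ z : Sym2 V → Bool,
      Sw F A w z = W0 + ∑ a ∈ F1 with (∃ p ∈ Hs a, z p = true), w a := by
    intro z
    unfold Sw
    rw [hW0, hF0, hF1]
    rw [← Finset.sum_filter_add_sum_filter_not (F.filter fun a => acc (A a) z) fun a => A a = none]
    congr 1
    · apply Finset.sum_congr _ fun _ _ => rfl
      ext a
      simp only [Finset.mem_filter]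
      constructor
      · rintro ⟨⟨h1, -⟩, h3⟩
        exact ⟨h1, h3⟩
      · rintro ⟨h1, h3⟩
        exact ⟨⟨h1, by rw [h3]; trivial⟩, h3⟩
    · apply Finset.sum_congr _ fun _ _ => rfl
      ext a
      simp only [Finset.mem_filter]
      constructor
      · rintro ⟨⟨h1, h2⟩, h3⟩
        have h4 := hsome a (Finset.mem_filter.2 ⟨h1, h3⟩)
        rw [h4] at h2
        exact ⟨⟨h1, h3⟩, h2⟩
      · rintro ⟨⟨h1, h3⟩, h2⟩
        have h4 := hsome a (Finset.mem_filter.2 ⟨h1, h3⟩)
        exact ⟨⟨h1, by rw [h4]; exact h2⟩, h3⟩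
  have hbadne : bad.Nonempty := by
    rw [Finset.nonempty_iff_ne_empty]
    intro h0
    rw [h0] at hcase
    simp at hcase
  have hθ0 : 0 < θ - W0 := by
    obtain ⟨g, hg⟩ := hbadne
    have hg' := (Finset.mem_filter.1 hg).2
    rw [hSw, not_le] at hg'
    have : 0 ≤ ∑ a ∈ F1 with (∃ p ∈ Hs a, bic g p = true), w a :=
      Finset.sum_nonneg fun a ha => hw1 a (Finset.mem_filter.1 ha).1
    linarith
  set wp : Sym2 V → ℝ := fun p => ∑ a ∈ F1 with p ∈ Hs a, w a with hwp
  set F2 : Sym2 V → Finset ι := fun p => F1.filter fun a => p ∉ Hs a with hF2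
  set P1 : Finset (Sym2 V) := E.filter fun p => (θ - W0) / 3 ≤ wp p with hP1
  set P2 : Sym2 V → Finset (Sym2 V) := fun p =>
    E.filter fun q => (θ - W0 - wp p) / 2 ≤ ∑ a ∈ F2 p with q ∈ Hs a, w a with hP2
  have hm : 0 < 2 * r ^ 2 := by positivity
  have hmR : (0 : ℝ) < ((2 * r ^ 2 : ℕ) : ℝ) := by exact_mod_cast hm
  have h63 : ((6 * r ^ 2 : ℕ) : ℝ) = 3 * ((2 * r ^ 2 : ℕ) : ℝ) := by push_cast; ring
  -- few heavy pairs
  have hlog : ∀ (S : Finset (V → Bool)), S.card * 2 ^ (5 * r + 4) ≤ 6 * r ^ 2 * N →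
      S.card * 2 ^ (3 * r + 1) ≤ N := by
    intro S hS
    have h1 : 6 * r ^ 2 ≤ 2 ^ (2 * r + 3) := by
      have := r_sq_le r
      have h2 : 2 ^ (2 * r + 3) = 8 * 2 ^ (2 * r) := by rw [pow_add]; ring
      omega
    have h2 : S.card * 2 ^ (5 * r + 4) ≤ 2 ^ (2 * r + 3) * N := hS.trans (Nat.mul_le_mul_right _ h1)
    have h3 : 5 * r + 4 = (3 * r + 1) + (2 * r + 3) := by ring
    rw [h3] at h2
    exact pow_cancel h2
  have hP1c : P1.card ≤ DD r := by
    by_contra hcon
    push Not at hcon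
    have h1 := many (5 * r + 4) (6 * r ^ 2) P1 (fun p hp => hE p (Finset.mem_filter.1 hp).1) hcon
    have hsub : bad ⊆ univ.filter fun g : V → Bool => (hit P1 g).card < 6 * r ^ 2 := by
      intro g hg
      refine Finset.mem_filter.2 ⟨mem_univ _, ?_⟩
      by_contra hh
      push Not at hh
      have h2 := heavy F1 Hs hm hHsc w hw1 (c := (θ - W0) / 3) (by positivity)
        (fun p hp => (Finset.mem_filter.1 hp).2) g hh
      apply (Finset.mem_filter.1 hg).2
      rw [hSw]
      have h3 : ((6 * r ^ 2 : ℕ) : ℝ) * ((θ - W0) / 3) / ((2 * r ^ 2 : ℕ) : ℝ) = θ - W0 := by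
        rw [h63]
        field_simp
      rw [h3] at h2
      linarith
    have h2 : bad.card * 2 ^ (5 * r + 4) ≤ 6 * r ^ 2 * N :=
      (Nat.mul_le_mul_right _ (Finset.card_le_card hsub)).trans h1
    have h3 := hlog bad h2
    apply hcase
    have h4 : bad.card * 2 ^ r ≤ bad.card * 2 ^ (3 * r + 1) :=
      Nat.mul_le_mul_left _ (Nat.pow_le_pow_right (by norm_num) (by omega))
    omega
  have hwlt : ∀ p ∈ E, p ∉ H → wp p < θ - W0 := by
    intro p hpE hpH
    have hne : (badp p).Nonempty := by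
      rw [Finset.nonempty_iff_ne_empty]
      intro h0
      apply hpH
      refine Finset.mem_filter.2 ⟨hpE, ?_⟩
      rw [h0]
      simp
    obtain ⟨g, hg⟩ := hne
    obtain ⟨-, hpg, hg'⟩ := Finset.mem_filter.1 hg
    rw [hSw, not_le] at hg'
    have h1 : wp p ≤ ∑ a ∈ F1 with (∃ p ∈ Hs a, bic g p = true), w a := by
      apply Finset.sum_le_sum_of_subset_of_nonneg
      · intro a ha
        obtain ⟨h1, h2⟩ := Finset.mem_filter.1 ha
        exact Finset.mem_filter.2 ⟨h1, p, h2, hpg⟩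
      · intro a ha _
        exact hw1 a (Finset.mem_filter.1 ha).1
    linarith
  have hP2c : ∀ p ∈ E, p ∉ H → (P2 p).card ≤ DD r := by
    intro p hpE hpH
    by_contra hcon
    push Not at hcon
    have hlt := hwlt p hpE hpH
    have h1 := many (5 * r + 4) (6 * r ^ 2) (P2 p)
      (fun q hq => hE q (Finset.mem_filter.1 hq).1) hcon
    have hsub : badp p ⊆ univ.filter fun g : V → Bool => (hit (P2 p) g).card < 6 * r ^ 2 := by
      intro g hg
      refine Finset.mem_filter.2 ⟨mem_univ _, ?_⟩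
      by_contra hh
      push Not at hh
      have h2 := heavy (F2 p) Hs hm (fun a ha => hHsc a (Finset.mem_filter.1 ha).1) w
        (fun a ha => hw1 a (Finset.mem_filter.1 ha).1) (c := (θ - W0 - wp p) / 2)
        (by linarith) (fun q hq => (Finset.mem_filter.1 hq).2) g hh
      obtain ⟨-, hpg, hg'⟩ := Finset.mem_filter.1 hg
      apply hg'
      rw [hSw]
      have h3 : ((6 * r ^ 2 : ℕ) : ℝ) * ((θ - W0 - wp p) / 2) / ((2 * r ^ 2 : ℕ) : ℝ) =
          3 / 2 * (θ - W0 - wp p) := by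
        rw [h63]
        field_simp
      rw [h3] at h2
      have h4 : wp p + ∑ a ∈ F2 p with (∃ q ∈ Hs a, bic g q = true), w a ≤
          ∑ a ∈ F1 with (∃ p ∈ Hs a, bic g p = true), w a := by
        rw [hwp, ← Finset.sum_union]
        · apply Finset.sum_le_sum_of_subset_of_nonneg
          · intro a ha
            rcases Finset.mem_union.1 ha with ha | ha
            · obtain ⟨h5, h6⟩ := Finset.mem_filter.1 ha
              exact Finset.mem_filter.2 ⟨h5, p, h6, hpg⟩
            · obtain ⟨h5, h6⟩ := Finset.mem_filter.1 ha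
              exact Finset.mem_filter.2 ⟨(Finset.mem_filter.1 h5).1, h6⟩
          · intro a ha _
            exact hw1 a (Finset.mem_filter.1 ha).1
        · rw [Finset.disjoint_left]
          intro a ha hb
          exact (Finset.mem_filter.1 (Finset.mem_filter.1 hb).1).2 (Finset.mem_filter.1 ha).2
      linarith
    have h2 : (badp p).card * 2 ^ (5 * r + 4) ≤ 6 * r ^ 2 * N :=
      (Nat.mul_le_mul_right _ (Finset.card_le_card hsub)).trans h1
    exact hpH (Finset.mem_filter.2 ⟨hpE, hlog _ h2⟩)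
  -- the lost triangles
  set L : Finset (Finset V) :=
    T.filter fun K => θ ≤ Sw F A w (zK K) ∧ ∀ p ∈ prs K, p ∉ H with hL
  have hzK : ∀ (K : Finset V) (a : ι), (∃ p ∈ Hs a, zK K p = true) ↔ ∃ p ∈ Hs a, p ∈ prs K := by
    intro K a
    constructor
    · rintro ⟨p, h1, h2⟩; exact ⟨p, h1, (zK_iff K p).1 h2⟩
    · rintro ⟨p, h1, h2⟩; exact ⟨p, h1, (zK_iff K p).2 h2⟩
  have hLsub : L ⊆ (P1.filter fun p => p ∉ H).biUnion fun p =>
      (P2 p).image fun q => ends p ∪ ends q := by
    intro K hK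
    obtain ⟨hKT, hKθ, hKH⟩ := Finset.mem_filter.1 hK
    rw [hSw] at hKθ
    have hK3 := hT K hKT
    obtain ⟨a, b, c, hab, hac, hbc, hKe⟩ := Finset.card_eq_three.1 hK3
    have hprs : prs K = {s(a, b), s(b, c), s(a, c)} := by
      rw [hKe]
      ext p
      induction p with
      | _ u v =>
      rw [mem_prs]
      simp only [mem_insert, mem_singleton, Sym2.eq_iff]
      constructor
      · rintro ⟨rfl | rfl | rfl, rfl | rfl | rfl, h⟩ <;> simp at h ⊢
      · rintro ((⟨rfl, rfl⟩ | ⟨rfl, rfl⟩) | (⟨rfl, rfl⟩ | ⟨rfl, rfl⟩) | (⟨rfl, rfl⟩ | ⟨rfl, rfl⟩)) <;>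
          simp [hab, hbc, hac, hab.symm, hbc.symm, hac.symm]
    -- the sum over the pairs of the triangle
    have hprc : (prs K).card = 3 := by
      rw [hprs, Finset.card_eq_three]
      refine ⟨_, _, _, ?_, ?_, ?_, rfl⟩
      · rw [Ne, Sym2.eq_iff]
        rintro (⟨h, -⟩ | ⟨h, -⟩)
        · exact hab h
        · exact hac h
      · rw [Ne, Sym2.eq_iff]
        rintro (⟨-, h⟩ | ⟨h, -⟩)
        · exact hbc h
        · exact hac h
      · rw [Ne, Sym2.eq_iff]
        rintro (⟨h, -⟩ | ⟨h, -⟩)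
        · exact hab h.symm
        · exact hbc h
    have hcover : ∀ (F' : Finset ι), (∀ x ∈ F', x ∈ F1) → ∀ Q : Finset (Sym2 V),
        ∑ x ∈ F' with (∃ p ∈ Hs x, p ∈ Q), w x ≤ ∑ p ∈ Q, ∑ x ∈ F' with p ∈ Hs x, w x := by
      intro F' hF' Q
      calc ∑ x ∈ F' with (∃ p ∈ Hs x, p ∈ Q), w x
          ≤ ∑ x ∈ F', ∑ p ∈ Q, if p ∈ Hs x then w x else 0 := by
            rw [Finset.sum_filter]
            refine Finset.sum_le_sum fun x hx => ?_
            have hnn : ∀ p ∈ Q, (0 : ℝ) ≤ if p ∈ Hs x then w x else 0 := by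
              intro p _
              split_ifs
              · exact hw1 x (hF' x hx)
              · exact le_rfl
            by_cases hex : ∃ p ∈ Hs x, p ∈ Q
            · rw [if_pos hex]
              obtain ⟨p, h1, h2⟩ := hex
              calc w x = if p ∈ Hs x then w x else 0 := by rw [if_pos h1]
                _ ≤ _ := Finset.single_le_sum hnn h2
            · rw [if_neg hex]
              exact Finset.sum_nonneg hnn
        _ = ∑ p ∈ Q, ∑ x ∈ F', if p ∈ Hs x then w x else 0 := Finset.sum_comm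
        _ = _ := Finset.sum_congr rfl fun p _ => by rw [Finset.sum_filter]
    have h1 : ∑ x ∈ F1 with (∃ p ∈ Hs x, zK K p = true), w x =
        ∑ x ∈ F1 with (∃ p ∈ Hs x, p ∈ prs K), w x := by
      apply Finset.sum_congr _ fun _ _ => rfl
      apply Finset.filter_congr
      intro x _
      exact hzK K x
    rw [h1] at hKθ
    -- a heavy pair
    obtain ⟨p, hpK, hpw⟩ : ∃ p ∈ prs K, (θ - W0) / 3 ≤ wp p := by
      by_contra hcon
      push Not at hcon
      have h2 := hcover F1 (fun _ h => h) (prs K)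
      have h3 : ∑ p ∈ prs K, wp p < ∑ p ∈ prs K, (θ - W0) / 3 := by
        apply Finset.sum_lt_sum_of_nonempty
        · rw [← Finset.card_pos, hprc]
          norm_num
        · exact hcon
      rw [Finset.sum_const, hprc, nsmul_eq_mul] at h3
      push_cast at h3
      linarith
    have hwpos : 0 < wp p := lt_of_lt_of_le (by positivity) hpw
    have hpE : p ∈ E := by
      by_contra hcon
      have : wp p = 0 := by
        rw [hwp]
        apply Finset.sum_eq_zero
        intro x hx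
        obtain ⟨hx1, hx2⟩ := Finset.mem_filter.1 hx
        exact (hcon (hHsE x hx1 hx2)).elim
      linarith
    have hpH := hKH p hpK
    have hlt := hwlt p hpE hpH
    -- the second pair
    have hsplit : ∑ x ∈ F1 with (∃ q ∈ Hs x, q ∈ prs K), w x ≤
        wp p + ∑ x ∈ F2 p with (∃ q ∈ Hs x, q ∈ (prs K).erase p), w x := by
      rw [hwp, ← Finset.sum_union]
      · apply Finset.sum_le_sum_of_subset_of_nonneg
        · intro x hx
          obtain ⟨hx1, q, hq1, hq2⟩ := Finset.mem_filter.1 hx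
          by_cases hxp : p ∈ Hs x
          · exact Finset.mem_union_left _ (Finset.mem_filter.2 ⟨hx1, hxp⟩)
          · apply Finset.mem_union_right
            refine Finset.mem_filter.2 ⟨Finset.mem_filter.2 ⟨hx1, hxp⟩, q, hq1, ?_⟩
            refine Finset.mem_erase.2 ⟨?_, hq2⟩
            rintro rfl
            exact hxp hq1
        · intro x hx _
          rcases Finset.mem_union.1 hx with hx | hx
          · exact hw1 x (Finset.mem_filter.1 hx).1
          · exact hw1 x (Finset.mem_filter.1 (Finset.mem_filter.1 hx).1).1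
      · rw [Finset.disjoint_left]
        intro x hx hy
        exact (Finset.mem_filter.1 (Finset.mem_filter.1 hy).1).2 (Finset.mem_filter.1 hx).2
    obtain ⟨q, hqK, hqw⟩ : ∃ q ∈ (prs K).erase p,
        (θ - W0 - wp p) / 2 ≤ ∑ x ∈ F2 p with q ∈ Hs x, w x := by
      by_contra hcon
      push Not at hcon
      have h2 := hcover (F2 p) (fun _ h => (Finset.mem_filter.1 h).1) ((prs K).erase p)
      have hc2 : ((prs K).erase p).card = 2 := by
        rw [Finset.card_erase_of_mem hpK, hprc]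
      have h3 : ∑ q ∈ (prs K).erase p, ∑ x ∈ F2 p with q ∈ Hs x, w x <
          ∑ q ∈ (prs K).erase p, (θ - W0 - wp p) / 2 := by
        apply Finset.sum_lt_sum_of_nonempty
        · rw [← Finset.card_pos, hc2]
          norm_num
        · exact hcon
      rw [Finset.sum_const, hc2, nsmul_eq_mul] at h3
      push_cast at h3
      linarith
    have hqpos : 0 < ∑ x ∈ F2 p with q ∈ Hs x, w x := lt_of_lt_of_le (by linarith) hqw
    have hqE : q ∈ E := by
      by_contra hcon
      have : ∑ x ∈ F2 p with q ∈ Hs x, w x = 0 := by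
        apply Finset.sum_eq_zero
        intro x hx
        obtain ⟨hx1, hx2⟩ := Finset.mem_filter.1 hx
        exact (hcon (hHsE x (Finset.mem_filter.1 hx1).1 hx2)).elim
      linarith
    obtain ⟨hqp, hqK'⟩ := Finset.mem_erase.1 hqK
    refine Finset.mem_biUnion.2 ⟨p, Finset.mem_filter.2 ⟨Finset.mem_filter.2 ⟨hpE, hpw⟩, hpH⟩, ?_⟩
    exact Finset.mem_image.2 ⟨q, Finset.mem_filter.2 ⟨hqE, hqw⟩, tri_eq hK3 hpK hqK' hqp.symm⟩
  have hLc : L.card ≤ DD r ^ 2 := by
    calc L.card ≤ _ := Finset.card_le_card hLsub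
      _ ≤ ∑ p ∈ P1.filter fun p => p ∉ H, ((P2 p).image fun q => ends p ∪ ends q).card :=
          Finset.card_biUnion_le
      _ ≤ ∑ p ∈ P1.filter fun p => p ∉ H, DD r := by
          refine Finset.sum_le_sum fun p hp => ?_
          obtain ⟨hp1, hp2⟩ := Finset.mem_filter.1 hp
          exact Finset.card_image_le.trans (hP2c p (Finset.mem_filter.1 hp1).1 hp2)
      _ = (P1.filter fun p => p ∉ H).card * DD r := by rw [Finset.sum_const, smul_eq_mul]
      _ ≤ DD r * DD r := Nat.mul_le_mul_right _ ((Finset.card_filter_le _ _).trans hP1c)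
      _ = DD r ^ 2 := by ring
  have hRc := hsumM H (Finset.Subset.refl _) hHc'
  refine ⟨some H, L, H.biUnion badp, hLc, by omega, ?_, ?_, ?_⟩
  · intro H' hH'
    rw [Option.some.injEq] at hH'
    rw [← hH']
    exact ⟨hHE, hHbig⟩
  · intro K hK hKL hθ
    by_contra hcon
    apply hKL
    refine Finset.mem_filter.2 ⟨hK, hθ, fun p hp hpH => hcon ⟨p, hpH, (zK_iff K p).2 hp⟩⟩
  · rintro g hgR ⟨p, hp, hpg⟩
    by_contra hcon
    exact hgR (Finset.mem_biUnion.2 ⟨p, hp, Finset.mem_filter.2 ⟨mem_univ _, hpg, hcon⟩⟩)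

end Pool.Agent.W2helper95.TS
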