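import Pool.Agent.W2helper95.TS.Core

/-!
# Threshold circuits which read the edge flags and the weights

The inputs of the circuits are named by `I ⊕ J`: the edge flags are the inputs `Sum.inl e`, the
inputs `Sum.inr j` are data about the weights, for example their binary digits.
-/

set_option autoImplicit false

open Finset

namespace Pool.Agent.W2helper95.TS

open Pool.Agent.W2helper95.ET

variable {I J : Type}

/-- The gate `i` depends on the edge flags: there is a path to it from an input gate for an edge
flag (on such a path a threshold gate is entered only through an input of nonzero weight). -/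
inductive Flag (C : Net (I ⊕ J)) : Fin C.s → Prop
  | inp {i : Fin C.s} {e : I} : C.gate i = Gate.inp (Sum.inl e) → Flag C i
  | or {i a : Fin C.s} {S : Finset (Fin C.s)} :
      C.gate i = Gate.or S → a ∈ S → a < i → Flag C a → Flag C i
  | thr {i a : Fin C.s} {w : Fin C.s → ℝ} {θ : ℝ} :
      C.gate i = Gate.thr w θ → w a ≠ 0 → a < i → Flag C a → Flag C i

/-- The number of the threshold gates which depend on the edge flags. -/
noncomputable def flagThr (C : Net (I ⊕ J)) : ℕ := {i : Fin C.s | Flag C i ∧ C.IsThr i}.ncard

/-- Along each increasing chain `x 0 ≤ x 1 ≤ ... ≤ x k` of edge flags, for fixed data `w`, there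
are at most `D` steps at which some signal which is used with a negative weight changes its
value. -/
def Alternates (C : Net (I ⊕ J)) (w : J → Bool) (D : ℕ) : Prop :=
  ∀ (k : ℕ) (x : ℕ → I → Bool), (∀ j e, x j e = true → x (j + 1) e = true) →
    {j : ℕ | j < k ∧ ∃ a, C.UsedNeg a ∧
      C.val (Sum.elim (x j) w) a ≠ C.val (Sum.elim (x (j + 1)) w) a}.ncard ≤ D

open Classical in
/-- The random circuit is `C ω` with probability `p ω`; it reads the edge flags `x` and the data
`w` about the weights `W`. It decides with gap `δ` whether the graph with the edge flags `x` has a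
triangle of total weight zero: for some `θ` it accepts with probability at least `θ + δ` if there
is such a triangle, and with probability at most `θ` if not, for all edge flags `x`. -/
def DecidesW {V J Ω : Type} [Fintype Ω] (δ : ℝ) (W : Sym2 V → ℤ) (w : J → Bool) (p : Ω → ℝ)
    (C : Ω → Net (Sym2 V ⊕ J)) : Prop :=
  (∀ ω, 0 ≤ p ω) ∧ ∑ ω, p ω = 1 ∧ ∃ θ : ℝ, ∀ x : Sym2 V → Bool,
    (HasZeroTriangle W x →
      θ + δ ≤ ∑ ω, p ω * (if (C ω).eval (Sum.elim x w) = true then 1 else 0)) ∧
    (¬ HasZeroTriangle W x →
      ∑ ω, p ω * (if (C ω).eval (Sum.elim x w) = true then 1 else 0) ≤ θ)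

/-- The value of a gate which does not depend on the edge flags. -/
theorem val_flag (C : Net (I ⊕ J)) (x y : I → Bool) (w : J → Bool) :
    ∀ (n : ℕ) (i : Fin C.s), i.val = n → ¬ Flag C i →
      C.val (Sum.elim x w) i = C.val (Sum.elim y w) i := by
  intro n
  induction n using Nat.strong_induction_on with
  | _ n ih =>
  intro i hi hf
  cases h : C.gate i with
  | inp p =>
    rw [C.val_inp h, C.val_inp h]
    cases p with
    | inl q => exact absurd (Flag.inp h) hf
    | inr j => rfl
  | const c => rw [C.val_const h, C.val_const h]
  | or S =>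
    have e : ∀ a, a < i → a ∈ S → C.val (Sum.elim x w) a = C.val (Sum.elim y w) a := by
      intro a hai haS
      exact ih a.val (by rw [← hi]; exact hai) a rfl fun hfa => hf (Flag.or h haS hai hfa)
    rw [Bool.eq_iff_iff, C.val_or h, C.val_or h]
    constructor
    · rintro ⟨a, hai, haS, hav⟩
      exact ⟨a, hai, haS, by rw [← e a hai haS]; exact hav⟩
    · rintro ⟨a, hai, haS, hav⟩
      exact ⟨a, hai, haS, by rw [e a hai haS]; exact hav⟩
  | thr v θ =>
    rw [Bool.eq_iff_iff, C.val_thr h, C.val_thr h]
    have e : ∑ a ∈ univ.filter (fun a => a < i), (if C.val (Sum.elim x w) a = true then v a else 0) =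
        ∑ a ∈ univ.filter (fun a => a < i), (if C.val (Sum.elim y w) a = true then v a else 0) := by
      apply Finset.sum_congr rfl
      intro a ha
      have hai : a < i := (Finset.mem_filter.1 ha).2
      by_cases hv : v a = 0
      · rw [hv]; simp
      · rw [ih a.val (by rw [← hi]; exact hai) a rfl fun hfa => hf (Flag.thr h hv hai hfa)]
    rw [e]

open Classical in
/-- The gates of the circuit with fixed weights. -/
noncomputable def fixGate (C : Net (I ⊕ J)) (w : J → Bool) (i : Fin C.s) : Gate I C.s :=
  if Flag C i then
    match C.gate i with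
    | Gate.inp (Sum.inl p) => Gate.inp p
    | Gate.inp (Sum.inr j) => Gate.const (w j)
    | Gate.const c => Gate.const c
    | Gate.or S => Gate.or S
    | Gate.thr v θ => Gate.thr v θ
  else Gate.const (C.val (Sum.elim (fun _ => false) w) i)

/-- The circuit with fixed weights. -/
noncomputable def fixC (C : Net (I ⊕ J)) (w : J → Bool) : Net I where
  s := C.s
  gate := fixGate C w
  out := C.out

theorem fixGate_thr {C : Net (I ⊕ J)} {w : J → Bool} {i : Fin C.s} {v : Fin C.s → ℝ} {θ : ℝ}
    (h : fixGate C w i = Gate.thr v θ) : Flag C i ∧ C.gate i = Gate.thr v θ := by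
  unfold fixGate at h
  by_cases hf : Flag C i
  · rw [if_pos hf] at h
    refine ⟨hf, ?_⟩
    cases hg : C.gate i with
    | inp p => rw [hg] at h; cases p <;> cases h
    | const c => rw [hg] at h; cases h
    | or S => rw [hg] at h; cases h
    | thr v' θ' =>
      rw [hg] at h
      injection h with h1 h2
      rw [h1, h2]
  · rw [if_neg hf] at h
    cases h

theorem fixC_val (C : Net (I ⊕ J)) (w : J → Bool) (x : I → Bool) :
    ∀ (n : ℕ) (i : Fin C.s), i.val = n → (fixC C w).val x i = C.val (Sum.elim x w) i := by
  intro n
  induction n using Nat.strong_induction_on with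
  | _ n ih =>
  intro i hi
  by_cases hf : Flag C i
  · cases hg : C.gate i with
    | inp p =>
      cases p with
      | inl q =>
        have h1 : (fixC C w).gate i = Gate.inp q := by
          change fixGate C w i = _
          unfold fixGate
          rw [if_pos hf, hg]
          rfl
        rw [(fixC C w).val_inp h1, C.val_inp hg]
        rfl
      | inr j =>
        have h1 : (fixC C w).gate i = Gate.const (w j) := by
          change fixGate C w i = _
          unfold fixGate
          rw [if_pos hf, hg]
          rfl
        rw [(fixC C w).val_const h1, C.val_inp hg]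
        rfl
    | const c =>
      have h1 : (fixC C w).gate i = Gate.const c := by
        change fixGate C w i = _
        unfold fixGate
        rw [if_pos hf, hg]
        rfl
      rw [(fixC C w).val_const h1, C.val_const hg]
    | or S =>
      have h1 : (fixC C w).gate i = Gate.or S := by
        change fixGate C w i = _
        unfold fixGate
        rw [if_pos hf, hg]
      rw [Bool.eq_iff_iff, (fixC C w).val_or h1, C.val_or hg]
      constructor
      · rintro ⟨a, hai, haS, hav⟩
        exact ⟨a, hai, haS, by rw [← ih a.val (by rw [← hi]; exact hai) a rfl]; exact hav⟩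
      · rintro ⟨a, hai, haS, hav⟩
        exact ⟨a, hai, haS, by rw [ih a.val (by rw [← hi]; exact hai) a rfl]; exact hav⟩
    | thr v θ =>
      have h1 : (fixC C w).gate i = Gate.thr v θ := by
        change fixGate C w i = _
        unfold fixGate
        rw [if_pos hf, hg]
      rw [Bool.eq_iff_iff, (fixC C w).val_thr h1, C.val_thr hg]
      have e : ∑ a ∈ univ.filter (fun a => a < i),
            (if (fixC C w).val x a = true then v a else 0) =
          ∑ a ∈ univ.filter (fun a => a < i),
            (if C.val (Sum.elim x w) a = true then v a else 0) := by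
        apply Finset.sum_congr rfl
        intro a ha
        have hai : a < i := (Finset.mem_filter.1 ha).2
        rw [ih a.val (by rw [← hi]; exact hai) a rfl]
      have e' : ∑ a ∈ univ.filter (fun a : Fin (fixC C w).s => a < i),
            (if (fixC C w).val x a = true then v a else 0) =
          ∑ a ∈ univ.filter (fun a => a < i),
            (if C.val (Sum.elim x w) a = true then v a else 0) := e
      rw [e']
  · have h1 : (fixC C w).gate i = Gate.const (C.val (Sum.elim (fun _ => false) w) i) := by
      change fixGate C w i = _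
      unfold fixGate
      rw [if_neg hf]
      rfl
    rw [(fixC C w).val_const h1]
    exact val_flag C _ _ w i.val i rfl hf

theorem fixC_eval (C : Net (I ⊕ J)) (w : J → Bool) (x : I → Bool) :
    (fixC C w).eval x = C.eval (Sum.elim x w) := fixC_val C w x C.out.val C.out rfl

theorem fixC_numThr (C : Net (I ⊕ J)) (w : J → Bool) : numThr (fixC C w) ≤ flagThr C := by
  unfold numThr flagThr
  apply Set.ncard_le_ncard _ (Set.toFinite _)
  rintro i ⟨v, θ, h⟩
  have h1 := fixGate_thr (C := C) (w := w) (i := i) (v := v) (θ := θ) h
  exact ⟨h1.1, v, θ, h1.2⟩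

theorem fixC_usedNeg {C : Net (I ⊕ J)} {w : J → Bool} {a : Fin C.s}
    (h : (fixC C w).UsedNeg a) : C.UsedNeg a := by
  obtain ⟨i, v, θ, hg, hai, hv⟩ := h
  exact ⟨i, v, θ, (fixGate_thr hg).2, hai, hv⟩

theorem fixC_altN {C : Net (I ⊕ J)} {w : J → Bool} {D : ℕ} (h : Alternates C w D) :
    AltN (fixC C w) D := by
  classical
  intro k x hx
  refine le_trans ?_ (h k x hx)
  rw [← Set.ncard_coe_finset]
  apply Set.ncard_le_ncard
  · intro j hj
    rw [Finset.mem_coe, Finset.mem_filter, Finset.mem_range] at hj
    obtain ⟨hjk, a, ha, hne⟩ := hj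
    refine ⟨hjk, a, fixC_usedNeg ((Net.mem_negs _).1 ha).1, ?_⟩
    rw [← fixC_val C w (x j) a.val a rfl, ← fixC_val C w (x (j + 1)) a.val a rfl]
    exact hne
  · exact (Set.finite_Iio k).subset fun j hj => hj.1

theorem fixC_decides {V J Ω : Type} [Fintype Ω] {δ : ℝ} {W : Sym2 V → ℤ} {w : J → Bool}
    {p : Ω → ℝ} {C : Ω → Net (Sym2 V ⊕ J)} (h : DecidesW δ W w p C) :
    Decides δ W p fun ω => fixC (C ω) w := by
  obtain ⟨hp, hp1, θ, hθ⟩ := h
  refine ⟨hp, hp1, θ, fun x => ?_⟩
  unfold accProb
  simp only [fixC_eval]
  exact hθ x

end Pool.Agent.W2helper95.TS
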