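import Pool.Agent.W2helper95.TS.Approx

/-!
# The dichotomy for the windows of a threshold circuit
-/

set_option autoImplicit false

open Finset

namespace Pool.Agent.W2helper95.TS

open Pool.Agent.W2helper95.ET

variable {V : Type} [DecidableEq V] [Fintype V]

/-- the bound for the number of accepted triangles -/
noncomputable def Lam (V : Type) [Fintype V] (r : ℕ) (C : Net (Sym2 V)) : ℕ :=
  DD r ^ 2 * numThr C + 2 * r ^ 2 * Fintype.card V

/-- **The dichotomy.** A window either accepts almost all bipartite graphs, up to changes of the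
NOT gates, or few triangles. -/
theorem dich (C : Net (Sym2 V)) {E : Finset (Sym2 V)} (hE : ∀ p ∈ E, ¬ p.IsDiag)
    (u : Sym2 V → Bool) {T : Finset (Finset V)} (hT : ∀ K ∈ T, K.card = 3) {r : ℕ} (hr : 2 ≤ r) :
    (∃ R : Finset (V → Bool), R.card * 2 ^ r ≤ 2 * (C.s + 1) * 2 ^ Fintype.card V ∧ ∀ g, g ∉ R →
      C.eval (inw E u (bic g)) = true ∨
        C.Changed (inw E u fun _ => false) (inw E u (bic g))) ∨
    (T.filter fun K => C.eval (inw E u (zK K)) = true).card ≤ Lam V r C := by
  classical
  obtain ⟨G, hG1, hG2⟩ := win C E u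
  obtain ⟨A, L, R, hL, hR, hA⟩ := approx (C := C) (E := E) (u := u) (T := T) (r := r) hE hT hr
    C.s le_rfl
  have hA' : ∀ i, Gd C E u T r L R i (A i) := fun i => hA i i.isLt
  have hL' : L.card ≤ DD r ^ 2 * numThr C := hL.trans (Nat.mul_le_mul_left _ (thrs_le C C.s))
  -- if the window is accepted by the approximator
  have hacc : ∀ (i : Fin C.s), i ∈ G → ∀ g, g ∉ R → acc (A i) (bic g) →
      C.eval (inw E u (bic g)) = true ∨
        C.Changed (inw E u fun _ => false) (inw E u (bic g)) := by
    intro i hi g hg h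
    by_cases hc : C.Changed (inw E u fun _ => false) (inw E u (bic g))
    · exact Or.inr hc
    · exact Or.inl (hG2 _ hc ⟨i, hi, (hA' i).2.2 g hg h⟩)
  by_cases hnone : ∃ i ∈ G, A i = none
  · left
    obtain ⟨i, hi, hAi⟩ := hnone
    refine ⟨R, hR.trans (by nlinarith [Nat.zero_le (2 ^ Fintype.card V)]), fun g hg => ?_⟩
    exact hacc i hi g hg (by rw [hAi]; trivial)
  · push Not at hnone
    set H : Finset (Sym2 V) := G.biUnion fun i => (A i).getD ∅ with hH
    have hHi : ∀ i ∈ G, ∃ Hi, A i = some Hi ∧ Hi ⊆ H ∧ Hi ⊆ E := by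
      intro i hi
      obtain ⟨Hi, hHi⟩ := Option.ne_none_iff_exists'.1 (hnone i hi)
      refine ⟨Hi, hHi, ?_, ((hA' i).1 Hi hHi).1⟩
      intro p hp
      exact Finset.mem_biUnion.2 ⟨i, hi, by rw [hHi]; exact hp⟩
    by_cases hbig : Big r H
    · left
      refine ⟨R ∪ mono H, ?_, fun g hg => ?_⟩
      · have h1 := card_mono hbig
        have h2 := Finset.card_union_le R (mono H)
        have h3 := Nat.mul_le_mul_right (2 ^ r) h2
        rw [add_mul] at h3
        have h4 : 2 * (C.s + 1) * 2 ^ Fintype.card V =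
            C.s * (2 * 2 ^ Fintype.card V) + 2 * 2 ^ Fintype.card V := by ring
        omega
      · rw [Finset.mem_union, not_or] at hg
        have h1 : ∃ p ∈ H, bic g p = true := by
          by_contra hcon
          push Not at hcon
          exact hg.2 (Finset.mem_filter.2 ⟨mem_univ _, hcon⟩)
        obtain ⟨p, hp, hpg⟩ := h1
        obtain ⟨i, hi, hpi⟩ := Finset.mem_biUnion.1 hp
        obtain ⟨Hi, hHi', -, -⟩ := hHi i hi
        rw [hHi'] at hpi
        exact hacc i hi g hg.1 (by rw [hHi']; exact ⟨p, hpi, hpg⟩)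
    · right
      have hHE : H ⊆ E := by
        intro p hp
        obtain ⟨i, hi, hpi⟩ := Finset.mem_biUnion.1 hp
        obtain ⟨Hi, hHi', -, h2⟩ := hHi i hi
        rw [hHi'] at hpi
        exact h2 hpi
      have hHc := card_le_of_not_big (fun p hp => hE p (hHE hp)) hbig
      have hsub : (T.filter fun K => C.eval (inw E u (zK K)) = true) ⊆
          L ∪ (T.filter fun K => ∃ p ∈ H, p ∈ prs K) := by
        intro K hK
        obtain ⟨hKT, hKe⟩ := Finset.mem_filter.1 hK
        by_cases hKL : K ∈ L
        · exact Finset.mem_union_left _ hKL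
        · apply Finset.mem_union_right
          refine Finset.mem_filter.2 ⟨hKT, ?_⟩
          obtain ⟨i, hi, hiz⟩ := hG1 _ hKe
          have h1 := (hA' i).2.1 K hKT hKL hiz
          obtain ⟨Hi, hHi', hs, -⟩ := hHi i hi
          rw [hHi'] at h1
          obtain ⟨p, hp, hpz⟩ := h1
          exact ⟨p, hs hp, (zK_iff K p).1 hpz⟩
      refine (Finset.card_le_card hsub).trans ((Finset.card_union_le _ _).trans ?_)
      unfold Lam
      exact Nat.add_le_add hL' ((meet_card hT H).trans (Nat.mul_le_mul_right _ hHc))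

/-- the dichotomy, as an inequality of averages -/
theorem dich_sum (C : Net (Sym2 V)) {E : Finset (Sym2 V)} (hE : ∀ p ∈ E, ¬ p.IsDiag)
    (u : Sym2 V → Bool) {T : Finset (Finset V)} (hT : ∀ K ∈ T, K.card = 3) {r : ℕ} (hr : 2 ≤ r) :
    (∑ K ∈ T, ind (C.eval (inw E u (zK K)) = true)) * 2 ^ Fintype.card V ≤
      T.card * ∑ g : V → Bool, (ind (C.eval (inw E u (bic g)) = true) +
        ind (C.Changed (inw E u fun _ => false) (inw E u (bic g)))) +
      (2 * (C.s + 1) / 2 ^ r * T.card + Lam V r C) * 2 ^ Fintype.card V := by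
  classical
  have hN : (0 : ℝ) < 2 ^ Fintype.card V := by positivity
  have hT0 : (0 : ℝ) ≤ T.card := Nat.cast_nonneg _
  have hle : ∑ K ∈ T, ind (C.eval (inw E u (zK K)) = true) ≤ T.card := by
    calc ∑ K ∈ T, ind (C.eval (inw E u (zK K)) = true) ≤ ∑ K ∈ T, (1 : ℝ) :=
          Finset.sum_le_sum fun K _ => ind_le _
      _ = T.card := by simp
  have hG0 : ∀ g : V → Bool, 0 ≤ ind (C.eval (inw E u (bic g)) = true) +
        ind (C.Changed (inw E u fun _ => false) (inw E u (bic g))) :=
    fun g => add_nonneg (ind_nonneg _) (ind_nonneg _)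
  rcases dich C hE u hT hr with ⟨R, hR, hg⟩ | h
  · have h1 : (2 : ℝ) ^ Fintype.card V - R.card ≤ ∑ g : V → Bool,
        (ind (C.eval (inw E u (bic g)) = true) +
        ind (C.Changed (inw E u fun _ => false) (inw E u (bic g)))) := by
      have h2 : ∑ g ∈ (univ \ R : Finset (V → Bool)), (1 : ℝ) ≤ ∑ g : V → Bool,
          (ind (C.eval (inw E u (bic g)) = true) +
          ind (C.Changed (inw E u fun _ => false) (inw E u (bic g)))) := by
        refine le_trans (Finset.sum_le_sum (f := fun _ => (1 : ℝ))
          (g := fun g => ind (C.eval (inw E u (bic g)) = true) +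
          ind (C.Changed (inw E u fun _ => false) (inw E u (bic g))))
          fun g hgR => ?_) (Finset.sum_le_sum_of_subset_of_nonneg (Finset.sdiff_subset)
            fun g _ _ => hG0 g)
        have hgR' := (Finset.mem_sdiff.1 hgR).2
        rcases hg g hgR' with h | h
        · have := ind_nonneg (C.Changed (inw E u fun _ => false)
            (inw E u (bic g)))
          rw [ind_pos h]
          linarith
        · have := ind_nonneg (C.eval (inw E u (bic g)) = true)
          rw [ind_pos h]
          linarith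
      have h3 : ∑ g ∈ (univ \ R : Finset (V → Bool)), (1 : ℝ) = 2 ^ Fintype.card V - R.card := by
        rw [Finset.sum_const, nsmul_eq_mul, mul_one, Finset.card_sdiff, Finset.inter_univ,
          Finset.card_univ, Fintype.card_fun, Fintype.card_bool, Nat.cast_sub]
        · push_cast
          ring
        · have := Finset.card_le_univ R
          rwa [Fintype.card_fun, Fintype.card_bool] at this
      rw [← h3]
      exact h2
    have h4 : (R.card : ℝ) ≤ 2 * (C.s + 1) / 2 ^ r * 2 ^ Fintype.card V := by
      have h5 : ((R.card * 2 ^ r : ℕ) : ℝ) ≤ ((2 * (C.s + 1) * 2 ^ Fintype.card V : ℕ) : ℝ) := by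
        exact_mod_cast hR
      push_cast at h5
      have h6 : (0 : ℝ) < 2 ^ r := by positivity
      rw [div_mul_eq_mul_div, le_div_iff₀ h6]
      exact h5
    have h7 : (0 : ℝ) ≤ Lam V r C := Nat.cast_nonneg _
    calc (∑ K ∈ T, ind (C.eval (inw E u (zK K)) = true)) * 2 ^ Fintype.card V
        ≤ T.card * 2 ^ Fintype.card V := mul_le_mul_of_nonneg_right hle hN.le
      _ = T.card * (2 ^ Fintype.card V - R.card) + T.card * R.card := by ring
      _ ≤ T.card * ∑ g : V → Bool, (ind (C.eval (inw E u (bic g)) = true) +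
            ind (C.Changed (inw E u fun _ => false) (inw E u (bic g)))) +
          T.card * (2 * (C.s + 1) / 2 ^ r * 2 ^ Fintype.card V) :=
          add_le_add (mul_le_mul_of_nonneg_left h1 hT0) (mul_le_mul_of_nonneg_left h4 hT0)
      _ ≤ _ := by
          have : (0 : ℝ) ≤ Lam V r C * 2 ^ Fintype.card V := by positivity
          linarith
  · have h1 : ∑ K ∈ T, ind (C.eval (inw E u (zK K)) = true) ≤ Lam V r C := by
      have h2 : ∑ K ∈ T, ind (C.eval (inw E u (zK K)) = true) =
          ((T.filter fun K => C.eval (inw E u (zK K)) = true).card : ℝ) := by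
        unfold ind
        rw [← Finset.sum_boole]
        refine Finset.sum_congr rfl fun K _ => ?_
        split_ifs <;> rfl
      rw [h2]
      exact_mod_cast h
    have h3 : 0 ≤ (T.card : ℝ) * ∑ g : V → Bool, (ind (C.eval (inw E u (bic g)) = true) +
        ind (C.Changed (inw E u fun _ => false) (inw E u (bic g)))) :=
      mul_nonneg hT0 (Finset.sum_nonneg fun g _ => hG0 g)
    have h4 : (0 : ℝ) ≤ 2 * (C.s + 1) / 2 ^ r * T.card := by positivity
    have h5 := mul_le_mul_of_nonneg_right h1 hN.le
    have h6 : 0 ≤ 2 * (C.s + 1) / 2 ^ r * (T.card : ℝ) * 2 ^ Fintype.card V := by positivity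
    linarith

end Pool.Agent.W2helper95.TS
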